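import Mathlib

-- merged part: Pool.Agent.Work.MP_274868_ag.Chart
section
/-! A chart of the Grassmannian of 3-planes in 6-space adapted to five letters, and the action of
two generators of the symmetric group on it. -/

namespace Pool.Agent.Work.MP_274868_ag

open Matrix

variable {F : Type*} [Field F]

/-- the chart -/
def Nm (a : Fin 5 → F) (p : Fin 5 → Fin 5 → F) (b : Fin 5 → F) : Matrix (Fin 3) (Fin 3) F :=
  !![a 0 * a 2 * p 0 2 / p 3 4, -((b 2 + b 3) / p 2 3 / p 3 4), (b 0 + b 4) / p 0 4 / p 3 4;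
    (b 2 + b 4) / p 2 4 / p 3 4, -(a 1 * a 2 * a 3 * a 4 * p 1 2 / p 3 4),
      -(a 4 * ((b 1 + b 3) / p 1 3) / p 3 4);
    (b 0 + b 3) / p 0 3 / p 3 4, a 3 * ((b 1 + b 4) / p 1 4) / p 3 4,
      a 0 * a 1 * a 3 * a 4 * p 0 1 / p 3 4]

/-- the relations which make the coordinates a point of the Grassmannian -/
structure Dat (a : Fin 5 → F) (p : Fin 5 → Fin 5 → F) (b : Fin 5 → F) (H : F) : Prop where
  symm : ∀ i j, p i j = p j i
  p0 : ∀ i j, i ≠ j → p i j ≠ 0
  a0 : ∀ i, a i ≠ 0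
  r0 : b 0 ^ 2 - H = a 0 * (a 0 * a 1 * a 2 * a 3 * a 4) * (p 0 1 * p 0 2 * p 0 3 * p 0 4)
  r1 : b 1 ^ 2 - H = a 1 * (a 0 * a 1 * a 2 * a 3 * a 4) * (p 0 1 * p 1 2 * p 1 3 * p 1 4)
  r3 : b 3 ^ 2 - H = a 3 * (a 0 * a 1 * a 2 * a 3 * a 4) * (p 0 3 * p 1 3 * p 2 3 * p 3 4)
  r4 : b 4 ^ 2 - H = a 4 * (a 0 * a 1 * a 2 * a 3 * a 4) * (p 0 4 * p 1 4 * p 2 4 * p 3 4)
  s23 : a 0 * a 1 * a 4 * (p 0 1 * p 0 4 * p 1 4) * (b 2 + b 3) =
    -(p 2 3 * (H + b 0 * b 1 + b 0 * b 4 + b 1 * b 4))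
  s12 : a 0 * a 3 * a 4 * (p 0 3 * p 0 4 * p 3 4) * (b 1 + b 2) =
    -(p 1 2 * (H + b 0 * b 3 + b 0 * b 4 + b 3 * b 4))
  s02 : a 1 * a 3 * a 4 * (p 1 3 * p 1 4 * p 3 4) * (b 0 + b 2) =
    -(p 0 2 * (H + b 1 * b 3 + b 1 * b 4 + b 3 * b 4))
  s24 : a 0 * a 1 * a 3 * (p 0 1 * p 0 3 * p 1 3) * (b 2 + b 4) =
    -(p 2 4 * (H + b 0 * b 1 + b 0 * b 3 + b 1 * b 3))

/-- the five-cycle -/
def rot : Equiv.Perm (Fin 5) := Equiv.addRight 2

/-- the transposition -/
def swp : Equiv.Perm (Fin 5) := Equiv.swap 0 1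

theorem rot0 : rot 0 = 2 := by decide
theorem rot1 : rot 1 = 3 := by decide
theorem rot2 : rot 2 = 4 := by decide
theorem rot3 : rot 3 = 0 := by decide
theorem rot4 : rot 4 = 1 := by decide
theorem swp0 : swp 0 = 1 := by decide
theorem swp1 : swp 1 = 0 := by decide
theorem swp2 : swp 2 = 2 := by decide
theorem swp3 : swp 3 = 3 := by decide
theorem swp4 : swp 4 = 4 := by decide

/-- the chart after renaming the letters -/
def Np (w : Equiv.Perm (Fin 5)) (a : Fin 5 → F) (p : Fin 5 → Fin 5 → F) (b : Fin 5 → F) :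
    Matrix (Fin 3) (Fin 3) F :=
  Nm (fun i => a (w i)) (fun i j => p (w i) (w j)) fun i => b (w i)

def G11 (a : Fin 5 → F) : Matrix (Fin 3) (Fin 3) F := !![1, 0, 0; 0, 0, a 4 / a 0; 0, 0, 0]
def G21 (a : Fin 5 → F) : Matrix (Fin 3) (Fin 3) F :=
  !![0, 0, 0; 0, 0, 0; 0, -(a 0 * a 1 * a 3 * a 4)⁻¹, 0]
def G12 (a : Fin 5 → F) : Matrix (Fin 3) (Fin 3) F :=
  !![0, 0, 0; 0, 0, 0; 0, a 0 * a 1 * a 3 * a 4, 0]
def G22 (a : Fin 5 → F) : Matrix (Fin 3) (Fin 3) F := !![0, 0, a 1; -(a 3)⁻¹, 0, 0; 0, 0, 0]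
def Lm (a : Fin 5 → F) : Matrix (Fin 3) (Fin 3) F := !![0, 1, 0; -(a 3 * a 4), 0, 0; 0, 0, a 3]
def Rm (a : Fin 5 → F) : Matrix (Fin 3) (Fin 3) F :=
  !![0, 1, 0; -(a 3 * a 4)⁻¹, 0, 0; 0, 0, (a 3)⁻¹]

variable {a : Fin 5 → F} {p : Fin 5 → Fin 5 → F} {b : Fin 5 → F} {H : F}

theorem Dat.swp_eq (D : Dat a p b H) : Np swp a p b = Lm a * (Nm a p b)ᵀ * Rm a := by
  have h3 := D.a0 3
  have h4 := D.a0 4
  have e : ∀ M : Matrix (Fin 3) (Fin 3) F, Lm a * Mᵀ * Rm a =
      !![-(a 3 * a 4)⁻¹ * M 1 1, M 0 1, (a 3)⁻¹ * M 2 1; M 1 0, -(a 3 * a 4) * M 0 0, -a 4 * M 2 0;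
        -(a 4)⁻¹ * M 1 2, a 3 * M 0 2, M 2 2] := by
    intro M
    ext i j
    fin_cases i <;> fin_cases j <;>
      simp [Lm, Rm, Matrix.mul_apply, Fin.sum_univ_three, -Matrix.cons_mul] <;> field_simp
  rw [e]
  ext i j
  fin_cases i <;> fin_cases j <;>
    simp [Np, Nm, swp0, swp1, swp2, swp3, swp4, D.symm 1 0] <;> field_simp

theorem Dat.rot_eq (D : Dat a p b H) :
    (G11 a + Nm a p b * G21 a) * Np rot a p b = G12 a + Nm a p b * G22 a := by
  have h0 := D.a0 0
  have h1 := D.a0 1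
  have h3 := D.a0 3
  have h4 := D.a0 4
  have q01 := D.p0 0 1 (by decide)
  have q02 := D.p0 0 2 (by decide)
  have q03 := D.p0 0 3 (by decide)
  have q04 := D.p0 0 4 (by decide)
  have q12 := D.p0 1 2 (by decide)
  have q13 := D.p0 1 3 (by decide)
  have q14 := D.p0 1 4 (by decide)
  have q23 := D.p0 2 3 (by decide)
  have q24 := D.p0 2 4 (by decide)
  have q34 := D.p0 3 4 (by decide)
  ext i j
  fin_cases i <;> fin_cases j <;>
    simp [Np, Nm, G11, G12, G21, G22, Matrix.mul_apply, Fin.sum_univ_three, rot0, rot1, rot2, rot3,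
      rot4, D.symm 4 0, D.symm 2 1, D.symm 4 1, D.symm 3 0, D.symm 2 0, D.symm 3 1] <;> field_simp
  · linear_combination (-p 2 3) * D.r4 - D.s23
  · ring
  · linear_combination D.s12 + p 1 2 * D.r0
  · linear_combination D.s02 + p 0 2 * D.r1
  · ring
  · linear_combination (-p 2 4) * D.r3 - D.s24
  · ring
  · ring

theorem Dat.det_ne (D : Dat a p b H) : (G11 a + Nm a p b * G21 a).det ≠ 0 := by
  have h0 := D.a0 0
  have h1 := D.a0 1
  have h3 := D.a0 3
  have h4 := D.a0 4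
  have q01 := D.p0 0 1 (by decide)
  have q34 := D.p0 3 4 (by decide)
  simp [Nm, G11, G21, Matrix.det_fin_three, *]

/-- the value of the derivative of `∏ (T - a j)` at `a i` -/
def fd (a : Fin 5 → F) (i : Fin 5) : F := ∏ j ∈ Finset.univ.erase i, (a i - a j)

/-- the rational point -/
def p0 (a : Fin 5 → F) (i j : Fin 5) : F := (a i - a j) ^ 2 / (a i * a j)

/-- the rational point -/
def b0 (a : Fin 5 → F) (i : Fin 5) : F := fd a i / a i

theorem prod_er0 (f : Fin 5 → F) : ∏ j ∈ Finset.univ.erase 0, f j = f 1 * f 2 * f 3 * f 4 := by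
  rw [show (Finset.univ.erase 0 : Finset (Fin 5)) = {1, 2, 3, 4} by decide]
  simp [mul_assoc]
theorem prod_er1 (f : Fin 5 → F) : ∏ j ∈ Finset.univ.erase 1, f j = f 0 * f 2 * f 3 * f 4 := by
  rw [show (Finset.univ.erase 1 : Finset (Fin 5)) = {0, 2, 3, 4} by decide]
  simp [mul_assoc]
theorem prod_er2 (f : Fin 5 → F) : ∏ j ∈ Finset.univ.erase 2, f j = f 0 * f 1 * f 3 * f 4 := by
  rw [show (Finset.univ.erase 2 : Finset (Fin 5)) = {0, 1, 3, 4} by decide]
  simp [mul_assoc]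
theorem prod_er3 (f : Fin 5 → F) : ∏ j ∈ Finset.univ.erase 3, f j = f 0 * f 1 * f 2 * f 4 := by
  rw [show (Finset.univ.erase 3 : Finset (Fin 5)) = {0, 1, 2, 4} by decide]
  simp [mul_assoc]
theorem prod_er4 (f : Fin 5 → F) : ∏ j ∈ Finset.univ.erase 4, f j = f 0 * f 1 * f 2 * f 3 := by
  rw [show (Finset.univ.erase 4 : Finset (Fin 5)) = {0, 1, 2, 3} by decide]
  simp [mul_assoc]

theorem prod_er_perm (w : Equiv.Perm (Fin 5)) (f : Fin 5 → F) (i : Fin 5) :
    ∏ j ∈ Finset.univ.erase i, f (w j) = ∏ j ∈ Finset.univ.erase (w i), f j :=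
  Finset.prod_equiv w (by simp) fun _ _ => rfl

theorem dat0 (h0 : ∀ i, a i ≠ 0) (hi : Function.Injective a) : Dat a (p0 a) (b0 a) 0 := by
  have a0 := h0 0
  have a1 := h0 1
  have a2 := h0 2
  have a3 := h0 3
  have a4 := h0 4
  refine ⟨fun i j => by simp only [p0]; ring, fun i j h => ?_, h0, ?_, ?_, ?_, ?_, ?_, ?_, ?_, ?_⟩
  · exact div_ne_zero (pow_ne_zero _ (sub_ne_zero.2 fun e => h (hi e))) (mul_ne_zero (h0 i) (h0 j))
  all_goals
    simp only [p0, b0, fd, prod_er0, prod_er1, prod_er2, prod_er3, prod_er4]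
    field_simp
    ring

end Pool.Agent.Work.MP_274868_ag
end

-- merged part: Pool.Agent.Work.MP_274868_ag.Gen
section
/-! General lemmas: generation of the symmetric group, transcendence bases, interpolation,
descent to symmetric functions and invariant bases. -/

namespace Pool.Agent.Work.MP_274868_ag

open Matrix Polynomial Finset

theorem perm_ind {P : Equiv.Perm (Fin 5) → Prop} (h1 : P 1) (hs : P swp) (hr : P rot)
    (hm : ∀ u v, P u → P v → P (u * v)) (w : Equiv.Perm (Fin 5)) : P w := by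
  have hc : Subgroup.closure ({finRotate 5, swp} : Set (Equiv.Perm (Fin 5))) = ⊤ :=
    Equiv.Perm.closure_prime_cycle_swap (by decide) isCycle_finRotate support_finRotate
      ⟨0, 1, by decide, rfl⟩
  have hw : w ∈ Subgroup.closure ({finRotate 5, swp} : Set (Equiv.Perm (Fin 5))) :=
    hc ▸ Subgroup.mem_top w
  have e1 : finRotate 5 = rot * rot * rot := by decide
  have e2 : (finRotate 5)⁻¹ = rot * rot := by decide
  have e3 : swp⁻¹ = swp := by decide
  refine Subgroup.closure_induction'' ?_ ?_ h1 (fun u v _ _ => hm u v) hw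
  · rintro u (rfl | rfl)
    · rw [e1]
      exact hm _ _ (hm _ _ hr hr) hr
    · exact hs
  · rintro u (rfl | rfl)
    · rw [e2]
      exact hm _ _ hr hr
    · rw [e3]
      exact hs

theorem perm_four {i j l m : Fin 5} (h : Function.Injective ![i, j, l, m]) :
    ∃ w : Equiv.Perm (Fin 5), w 0 = i ∧ w 1 = j ∧ w 3 = l ∧ w 4 = m := by
  obtain ⟨w, hw⟩ := Equiv.Perm.exists_extending_pair (![0, 1, 3, 4] : Fin 4 → Fin 5) _
    (by decide) h
  exact ⟨w, hw 0, hw 1, hw 2, hw 3⟩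

variable {k E : Type*} [Field k] [Field E] [Algebra k E]

theorem indep_of_alg {ι : Type} [Finite ι] {y z : ι → E} (hy : AlgebraicIndependent k y)
    (hz : ∀ e : E, IsAlgebraic (IntermediateField.adjoin k (Set.range z)) e) :
    AlgebraicIndependent k z := by
  have h : Algebra.IsAlgebraic (Algebra.adjoin k (Set.range z)) E :=
    IntermediateField.isAlgebraic_adjoin_iff_top.1 ⟨hz⟩
  exact (Algebra.IsAlgebraic.isTranscendenceBasis_of_lift_le_trdeg_of_finite k z
    hy.lift_cardinalMk_le_trdeg).1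

theorem alg_of_gen {S : Set E} (hS : IntermediateField.adjoin k S = ⊤)
    {L : IntermediateField k E} (h : ∀ s ∈ S, IsAlgebraic L s) (e : E) : IsAlgebraic L e := by
  have he : e ∈ IntermediateField.adjoin k S := hS ▸ IntermediateField.mem_top
  have : IntermediateField.adjoin k S ≤ (algebraicClosure L E).restrictScalars k :=
    IntermediateField.adjoin_le_iff.2 fun s hs => mem_algebraicClosure_iff.2 (h s hs)
  exact mem_algebraicClosure_iff.1 (this he)

theorem interp_exists {n : ℕ} {z : Fin n → E} (hz : Function.Injective z) (v : Fin n → E) :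
    ∃ y : Fin n → E, ∀ i, v i = ∑ r, y r * z i ^ (r : ℕ) := by
  have h : IsUnit (vandermonde z).det := (det_vandermonde_ne_zero_iff.2 hz).isUnit
  refine ⟨(vandermonde z)⁻¹ *ᵥ v, fun i => ?_⟩
  have h1 : vandermonde z *ᵥ ((vandermonde z)⁻¹ *ᵥ v) = v := by
    rw [mulVec_mulVec, mul_nonsing_inv _ h, one_mulVec]
  conv_lhs => rw [← h1]
  simp only [mulVec, dotProduct, vandermonde_apply]
  exact sum_congr rfl fun r _ => mul_comm _ _

theorem interp_unique {n : ℕ} {z : Fin n → E} (hz : Function.Injective z) {y y' : Fin n → E}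
    (h : ∀ i, ∑ r, y r * z i ^ (r : ℕ) = ∑ r, y' r * z i ^ (r : ℕ)) : y = y' := by
  refine sub_eq_zero.1 (eq_zero_of_forall_index_sum_mul_pow_eq_zero hz fun i => ?_)
  simp only [Pi.sub_apply, sub_mul, sum_sub_distrib, h i, sub_self]

theorem interp_mem {n : ℕ} {z : Fin n → E} (hz : Function.Injective z) (L : IntermediateField k E)
    (hL : ∀ i, z i ∈ L) {y : Fin n → E} (h : ∀ i, ∑ r, y r * z i ^ (r : ℕ) ∈ L) (r : Fin n) :
    y r ∈ L := by
  obtain ⟨y', hy⟩ := interp_exists (E := L) (z := fun i => ⟨z i, hL i⟩)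
    (fun i j e => hz (congrArg Subtype.val e)) fun i => ⟨_, h i⟩
  have : y = fun r => (y' r : E) := interp_unique hz fun i => by
    have := congrArg Subtype.val (hy i)
    simpa using this
  rw [this]
  exact (y' r).2

/-- an action of the symmetric group -/
structure Act (k E : Type*) [Field k] [Field E] [Algebra k E] where
  g : Equiv.Perm (Fin 5) → E →ₐ[k] E
  one : ∀ z, g 1 z = z
  mul : ∀ u v z, g u (g v z) = g (u * v) z

namespace Act

variable (A : Act k E)

/-- invariant elements -/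
def Fx (z : E) : Prop := ∀ w, A.g w z = z

variable {A}

theorem fx_sum (z : E) : A.Fx (∑ w, A.g w z) := fun u => by
  rw [map_sum]
  simp only [A.mul]
  exact Equiv.sum_comp (Equiv.mulLeft u) fun w => A.g w z

theorem fx_prod (z : E) : A.Fx (∏ w, A.g w z) := fun u => by
  rw [map_prod]
  simp only [A.mul]
  exact Equiv.prod_comp (Equiv.mulLeft u) fun w => A.g w z

theorem fx_adjoin {S : Set E} (hS : ∀ s ∈ S, A.Fx s) {z : E}
    (hz : z ∈ IntermediateField.adjoin k S) : A.Fx z := fun w => by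
  induction hz using IntermediateField.adjoin_induction with
  | mem x hx => exact hS x hx w
  | algebraMap x => exact (A.g w).commutes x
  | add x y _ _ h1 h2 => rw [map_add, h1, h2]
  | inv x _ h1 => rw [map_inv₀, h1]
  | mul x y _ _ h1 h2 => rw [map_mul, h1, h2]

theorem map_adjoin {S : Set E} (w : Equiv.Perm (Fin 5))
    (hS : ∀ s ∈ S, A.g w s ∈ IntermediateField.adjoin k S) {z : E}
    (hz : z ∈ IntermediateField.adjoin k S) : A.g w z ∈ IntermediateField.adjoin k S :=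
  (IntermediateField.adjoin_le_iff (T := (IntermediateField.adjoin k S).comap (A.g w))).2 hS hz

theorem descent [CharZero k] {a : Fin 5 → E} (ha : ∀ w i, A.g w (a i) = a (w i)) {S : Set E}
    (hS : ∀ s ∈ S, A.Fx s) (M : IntermediateField k E)
    (hM : ∀ r, (∏ i, (X - C (a i))).coeff r ∈ M) (hSM : S ⊆ M) {z : E}
    (hz : z ∈ IntermediateField.adjoin k (Set.range a ∪ S)) (hf : A.Fx z) : z ∈ M := by
  have : CharZero E := charZero_of_injective_algebraMap (algebraMap k E).injective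
  set M' := IntermediateField.adjoin k S with hM'
  have hle : M' ≤ M := IntermediateField.adjoin_le_iff.2 hSM
  have hes : ∀ n : Fin 5, (univ.val.map a).esymm (n + 1) ∈ M := by
    intro n
    have h1 := Multiset.prod_X_sub_C_coeff (univ.val.map a) (k := 4 - n) (by simp; omega)
    have h2 := hM (4 - n)
    have h3 : Multiset.card (univ.val.map a) - (4 - n) = n + 1 := by simp; omega
    rw [h3, Multiset.map_map] at h1
    rw [Finset.prod, show (fun i => X - C (a i)) = (fun t => X - C t) ∘ a from rfl, h1] at h2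
    have h4 := mul_mem (pow_mem (neg_mem (one_mem M)) (n + 1)) h2
    rwa [← mul_assoc, ← mul_pow, neg_mul_neg, one_mul, one_pow, one_mul] at h4
  have hP : ∀ y ∈ Algebra.adjoin k (Set.range a ∪ S), ∃ P : MvPolynomial (Fin 5) M',
      ∀ w, A.g w y = MvPolynomial.aeval a (MvPolynomial.rename w P) := by
    intro y hy
    induction hy using Algebra.adjoin_induction with
    | mem x hx =>
      rcases hx with ⟨i, rfl⟩ | hx
      · exact ⟨MvPolynomial.X i, fun w => by simp [ha]⟩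
      · exact ⟨MvPolynomial.C ⟨x, IntermediateField.subset_adjoin k S hx⟩, fun w => by
          simpa using hS x hx w⟩
    | algebraMap x => exact ⟨MvPolynomial.C (algebraMap k M' x), fun w => by simp⟩
    | add x y _ _ h1 h2 =>
      obtain ⟨P, hP⟩ := h1
      obtain ⟨Q, hQ⟩ := h2
      exact ⟨P + Q, fun w => by simp [hP, hQ]⟩
    | mul x y _ _ h1 h2 =>
      obtain ⟨P, hP⟩ := h1
      obtain ⟨Q, hQ⟩ := h2
      exact ⟨P * Q, fun w => by simp [hP, hQ]⟩
  have hA : ∀ y ∈ Algebra.adjoin k (Set.range a ∪ S), A.Fx y → y ∈ M := by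
    intro y hy hf
    obtain ⟨P, hP⟩ := hP y hy
    have hsym : (∑ w : Equiv.Perm (Fin 5), MvPolynomial.rename w P).IsSymmetric := fun u => by
      rw [map_sum]
      simp only [MvPolynomial.rename_rename]
      exact Equiv.sum_comp (Equiv.mulLeft u) fun w => MvPolynomial.rename w P
    obtain ⟨Q, hQ⟩ := MvPolynomial.esymmAlgHom_surjective M' (σ := Fin 5) (n := 5) (by simp)
      ⟨_, hsym⟩
    have h1 := congrArg (fun q => MvPolynomial.aeval a q.val) hQ
    simp only [MvPolynomial.esymmAlgHom_apply, map_sum, ← hP, hf _, sum_const, nsmul_eq_mul] at h1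
    have h2 : MvPolynomial.aeval a (MvPolynomial.aeval
        (fun i : Fin 5 => MvPolynomial.esymm (Fin 5) M' (i + 1)) Q) ∈ M := by
      clear hQ h1
      induction Q using MvPolynomial.induction_on with
      | C c => simpa using hle c.2
      | add p q h1 h2 => simpa using add_mem h1 h2
      | mul_X p n h =>
        rw [map_mul, map_mul, MvPolynomial.aeval_X, MvPolynomial.aeval_esymm_eq_multiset_esymm]
        exact mul_mem h (hes n)
    rw [h1] at h2
    have h3 : ((univ : Finset (Equiv.Perm (Fin 5))).card : E) ≠ 0 :=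
      Nat.cast_ne_zero.2 (card_pos.2 univ_nonempty).ne'
    have h4 := mul_mem (inv_mem (natCast_mem M (univ : Finset (Equiv.Perm (Fin 5))).card)) h2
    rwa [inv_mul_cancel_left₀ h3] at h4
  have hg : ∀ w, ∀ y ∈ Algebra.adjoin k (Set.range a ∪ S),
      A.g w y ∈ Algebra.adjoin k (Set.range a ∪ S) := fun w y hy =>
    (Algebra.adjoin_le (S := (Algebra.adjoin k (Set.range a ∪ S)).comap (A.g w)) (by
      rintro x (⟨i, rfl⟩ | hx)
      · exact Algebra.subset_adjoin (Or.inl ⟨w i, (ha w i).symm⟩)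
      · exact Algebra.subset_adjoin (Or.inr ((hS x hx w).symm ▸ hx)))) hy
  obtain ⟨p, hp, q, hq, rfl⟩ := IntermediateField.mem_adjoin_iff_div.1 hz
  by_cases h0 : q = 0
  · rw [h0, div_zero]
    exact zero_mem M
  have hQ0 : ∏ w, A.g w q ≠ 0 := prod_ne_zero_iff.2 fun w _ => (_root_.map_ne_zero _).2 h0
  have hQ : ∏ w, A.g w q ∈ M := hA _ (prod_mem fun w _ => hg w q hq) (fx_prod q)
  have e : p / q * ∏ w, A.g w q = p * ∏ w ∈ univ.erase 1, A.g w q := by
    rw [← mul_prod_erase univ _ (mem_univ 1), A.one, ← mul_assoc, div_mul_cancel₀ _ h0]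
  have h5 : p / q * ∏ w, A.g w q ∈ M :=
    hA _ (e ▸ mul_mem hp (prod_mem fun w _ => hg w q hq)) fun w => by
      rw [map_mul, hf w, fx_prod q w]
  have h6 := div_mem h5 hQ
  rwa [mul_div_cancel_right₀ _ hQ0] at h6

theorem speiser {a : Fin 5 → E} (ha : ∀ w i, A.g w (a i) = a (w i)) (hi : Function.Injective a)
    (W : Submodule (IntermediateField.adjoin k (Set.range a)) E) (hW : ∀ w, ∀ z ∈ W, A.g w z ∈ W) :
    W ≤ Submodule.span _ {z | z ∈ W ∧ A.Fx z} := by
  intro z hz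
  by_contra hn
  obtain ⟨φ, h1, h2⟩ := Submodule.exists_le_ker_of_notMem hn
  have hL : ∀ w (l : IntermediateField.adjoin k (Set.range a)),
      A.g w l ∈ IntermediateField.adjoin k (Set.range a) := fun w l =>
    map_adjoin w (by
      rintro _ ⟨i, rfl⟩
      exact IntermediateField.subset_adjoin k _ ⟨w i, (ha w i).symm⟩) l.2
  let χ : Equiv.Perm (Fin 5) → (IntermediateField.adjoin k (Set.range a) →* E) := fun w =>
    ((A.g w).comp (IntermediateField.val _)).toRingHom.toMonoidHom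
  have hχ : Function.Injective χ := fun u v h => Equiv.ext fun i => hi (by
    rw [← ha, ← ha]
    exact DFunLike.congr_fun h ⟨a i, IntermediateField.subset_adjoin k _ ⟨i, rfl⟩⟩)
  have hli := (linearIndependent_monoidHom (IntermediateField.adjoin k (Set.range a)) E).comp χ hχ
  have h3 := Fintype.linearIndependent_iff.1 hli (fun w => (φ (A.g w z) : E)) (by
    funext l
    have h4 : φ (∑ w, A.g w (l * z)) = 0 := h2 (Submodule.subset_span
      ⟨Submodule.sum_mem _ fun w _ => hW w _ (W.smul_mem l hz), fx_sum _⟩)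
    have h5 : ∀ w, A.g w (l * z) = (⟨A.g w l, hL w l⟩ :
        IntermediateField.adjoin k (Set.range a)) • A.g w z := fun w => map_mul _ _ _
    simp only [h5, map_sum, map_smul, smul_eq_mul] at h4
    have h6 := congrArg Subtype.val h4
    simp only [Finset.sum_apply, Pi.smul_apply, smul_eq_mul, Pi.zero_apply, Function.comp]
    simpa [χ, mul_comm] using h6) 1
  rw [A.one] at h3
  exact h1 (Subtype.ext h3)

end Act

theorem exists_nine {L : Type*} [Field L] [Algebra L E] {T : Set E} (h1 : (1 : E) ∈ T)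
    (ψ : Fin 3 × Fin 3 → E) (hT : T ⊆ Submodule.span L (insert 1 (Set.range ψ))) :
    ∃ s : Fin 9 → E, (∀ j, s j ∈ T) ∧ T ⊆ Submodule.span L (insert 1 (Set.range s)) := by
  classical
  obtain ⟨B, hB, h1B, hTB, hli⟩ := exists_linearIndepOn_id_extension (K := L)
    (LinearIndepOn.singleton (v := id) (one_ne_zero : (1 : E) ≠ 0)) (Set.singleton_subset_iff.2 h1)
  have hc := linearIndependent_le_span' _ hli (insert 1 (Set.range ψ) : Set E) (by
    rintro _ ⟨x, rfl⟩
    exact hT (hB x.2))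
  have h10 : Fintype.card (insert 1 (Set.range ψ) : Set E) ≤ 10 := by
    rw [← Set.toFinset_card, Set.toFinset_insert, Set.toFinset_range]
    exact (card_insert_le _ _).trans (Nat.succ_le_succ (card_image_le.trans (by simp)))
  have hfin : B.Finite := Cardinal.lt_aleph0_iff_set_finite.1 (hc.trans_lt Cardinal.natCast_lt_aleph0)
  have hn : B.ncard ≤ 10 := by
    rw [← Set.cast_ncard hfin] at hc
    exact (Nat.cast_le.1 hc).trans h10
  have h9 : (B \ {1}).ncard ≤ 9 := by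
    rw [Set.ncard_sdiff_singleton_of_mem (h1B rfl)]
    omega
  have : Finite (B \ {1} : Set E) := (hfin.subset Set.sdiff_subset).to_subtype
  obtain ⟨f⟩ : Nonempty ((B \ {1} : Set E) ↪ Fin 9) := by
    have := Fintype.ofFinite (B \ {1} : Set E)
    refine Function.Embedding.nonempty_of_card_le ?_
    rwa [Fintype.card_fin, ← Nat.card_eq_fintype_card, Nat.card_coe_set_eq]
  refine ⟨Function.extend f Subtype.val fun _ => 1, fun j => ?_, hTB.trans (Submodule.span_mono ?_)⟩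
  · by_cases h : ∃ x, f x = j
    · obtain ⟨x, rfl⟩ := h
      rw [f.injective.extend_apply]
      exact hB x.2.1
    · rw [Function.extend_apply' _ _ _ h]
      exact h1
  · intro x hx
    by_cases h : x = 1
    · exact Or.inl h
    · exact Or.inr ⟨f ⟨x, hx, h⟩, f.injective.extend_apply _ _ _⟩

end Pool.Agent.Work.MP_274868_ag
end

-- merged part: Pool.Agent.Work.MP_274868_ag.Data
section
/-! The point of the Grassmannian attached to a point of the torus and nine parameters. -/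

namespace Pool.Agent.Work.MP_274868_ag

open Matrix Finset

variable {F : Type*} [Field F]

def be (x : Fin 5 → F) (i : Fin 5) : F := (x i + 1) / (x i - 1)

def et (x : Fin 5 → F) : F := ∑ i, be x i

def bb (x : Fin 5 → F) (i : Fin 5) : F := be x i * et x

def Th (t : Fin 9 → F) : Matrix (Fin 4) (Fin 4) F :=
  !![1, t 0, t 1, t 2; t 0, t 3, t 4, t 5; t 1, t 4, t 6, t 7; t 2, t 5, t 7, t 8]

def pp (x : Fin 5 → F) (t : Fin 9 → F) (i j : Fin 5) : F :=
  ∑ n : Fin 4, (∑ m : Fin 4, Th t m n * bb x i ^ (m : ℕ)) * bb x j ^ (n : ℕ)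

def cc (x : Fin 5 → F) (t : Fin 9 → F) (i : Fin 5) : F :=
  (bb x i ^ 2 - et x ^ 2) / ∏ j ∈ univ.erase i, pp x t i j

def ee (x : Fin 5 → F) (t : Fin 9 → F) : F := ∑ i, cc x t i

def aa (x : Fin 5 → F) (t : Fin 9 → F) (i : Fin 5) : F := cc x t i / ee x t

def PP (p : Fin 5 → Fin 5 → F) : F :=
  p 0 1 * p 0 2 * p 0 3 * p 0 4 * p 1 2 * p 1 3 * p 1 4 * p 2 3 * p 2 4 * p 3 4

def la (x : Fin 5 → F) (t : Fin 9 → F) : F :=
  (∏ i, (bb x i + et x)) / PP (pp x t) / ee x t ^ 3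

def bt (x : Fin 5 → F) (t : Fin 9 → F) (i : Fin 5) : F := la x t * bb x i

def Mm (x : Fin 5 → F) (t : Fin 9 → F) : Matrix (Fin 3) (Fin 3) F :=
  Nm (aa x t) (pp x t) (bt x t) - Nm (aa x t) (p0 (aa x t)) (b0 (aa x t))

/-- general position -/
structure ND (x : Fin 5 → F) (t : Fin 9 → F) : Prop where
  x1 : ∀ i, x i - 1 ≠ 0
  xi : ∀ i j, i ≠ j → x i - x j ≠ 0
  et0 : et x ≠ 0
  pp0 : ∀ i j, i ≠ j → pp x t i j ≠ 0
  ee0 : ee x t ≠ 0
  la0 : la x t ≠ 0
  a0 : ∀ i, aa x t i ≠ 0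
  ai : ∀ i j, i ≠ j → aa x t i - aa x t j ≠ 0
  bi : ∀ i j, i ≠ j → bb x i - bb x j ≠ 0
  det0 : (Mm x t).det ≠ 0

theorem pp_symm (x : Fin 5 → F) (t : Fin 9 → F) (i j : Fin 5) : pp x t i j = pp x t j i := by
  simp [pp, Th, Fin.sum_univ_four]
  ring

theorem s_aux {η b1 b2 b3 b4 b5 : F} (h2 : (2 : F) ≠ 0) (hη : η ≠ 0)
    (h : (b1 + η) * (b2 + η) * (b3 + η) * (b4 + η) * (b5 + η) =
      (b1 - η) * (b2 - η) * (b3 - η) * (b4 - η) * (b5 - η)) :
    (b1 + η) * (b2 + η) * (b3 + η) * (b4 + η) * (b5 + η) * (b1 + b2) =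
      -((η ^ 2 + b3 * b4 + b3 * b5 + b4 * b5) * (b1 ^ 2 - η ^ 2) * (b2 ^ 2 - η ^ 2)) := by
  apply mul_left_cancel₀ (mul_ne_zero h2 hη)
  linear_combination ((b1 + η) * (b2 + η)) * h

theorem s_aux2 {η b1 b2 b3 b4 b5 c1 c2 c3 c4 c5 u e p12 q q1 q2 : F} (h2 : (2 : F) ≠ 0)
    (hη : η ≠ 0) (he : e ≠ 0) (hc1 : c1 ≠ 0) (hc2 : c2 ≠ 0) (hp : p12 ≠ 0) (hq1 : q1 ≠ 0)
    (hq2 : q2 ≠ 0)
    (h : (b1 + η) * (b2 + η) * (b3 + η) * (b4 + η) * (b5 + η) =
      (b1 - η) * (b2 - η) * (b3 - η) * (b4 - η) * (b5 - η))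
    (hu : u * (p12 * q * q1 * q2) = (b1 + η) * (b2 + η) * (b3 + η) * (b4 + η) * (b5 + η))
    (hu2 : u ^ 2 = c1 * c2 * c3 * c4 * c5) (h1 : c1 * (p12 * q1) = b1 ^ 2 - η ^ 2)
    (h2' : c2 * (p12 * q2) = b2 ^ 2 - η ^ 2) :
    c3 / e * (c4 / e) * (c5 / e) * q * (u / e ^ 3 * b1 + u / e ^ 3 * b2) =
      -(p12 * ((u / e ^ 3 * η) ^ 2 + u / e ^ 3 * b3 * (u / e ^ 3 * b4) +
        u / e ^ 3 * b3 * (u / e ^ 3 * b5) + u / e ^ 3 * b4 * (u / e ^ 3 * b5))) := by
  have h3 := s_aux h2 hη h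
  rw [← hu, ← h1, ← h2'] at h3
  have h4 : u * q * (b1 + b2) = -(p12 * c1 * c2 * (η ^ 2 + b3 * b4 + b3 * b5 + b4 * b5)) := by
    apply mul_left_cancel₀ (mul_ne_zero hp (mul_ne_zero hq1 hq2))
    linear_combination h3
  have h5 : c3 * c4 * c5 * q * (b1 + b2) = -(p12 * u * (η ^ 2 + b3 * b4 + b3 * b5 + b4 * b5)) := by
    apply mul_left_cancel₀ (mul_ne_zero hc1 hc2)
    linear_combination u * h4 - q * (b1 + b2) * hu2
  field_simp
  linear_combination u * h5

theorem ND.dat [CharZero F] {x : Fin 5 → F} {t : Fin 9 → F} (N : ND x t) (hx : ∏ i, x i = 1) :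
    Dat (aa x t) (pp x t) (bt x t) ((la x t * et x) ^ 2) := by
  have hs := pp_symm x t
  have q01 := N.pp0 0 1 (by decide)
  have q02 := N.pp0 0 2 (by decide)
  have q03 := N.pp0 0 3 (by decide)
  have q04 := N.pp0 0 4 (by decide)
  have q12 := N.pp0 1 2 (by decide)
  have q13 := N.pp0 1 3 (by decide)
  have q14 := N.pp0 1 4 (by decide)
  have q23 := N.pp0 2 3 (by decide)
  have q24 := N.pp0 2 4 (by decide)
  have q34 := N.pp0 3 4 (by decide)
  have he := N.ee0
  have hη := N.et0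
  have hc0 : ∀ i, cc x t i ≠ 0 := fun i h => N.a0 i (by rw [aa, h, zero_div])
  have hb : ∀ i, bb x i + et x = x i * (bb x i - et x) := fun i => by
    have := N.x1 i
    simp only [bb, be]
    field_simp
    ring
  have hρ : ∏ i, (bb x i + et x) = ∏ i, (bb x i - et x) := by
    simp only [hb, prod_mul_distrib, hx, one_mul]
  have hc : ∀ i, cc x t i * ∏ j ∈ univ.erase i, pp x t i j = bb x i ^ 2 - et x ^ 2 := fun i =>
    div_mul_cancel₀ _ (prod_ne_zero_iff.2 fun j hj => N.pp0 i j (ne_of_mem_erase hj).symm)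
  have c0 := hc 0
  have c1 := hc 1
  have c2 := hc 2
  have c3 := hc 3
  have c4 := hc 4
  simp only [prod_er0, prod_er1, prod_er2, prod_er3, prod_er4, hs 1 0, hs 2 0, hs 3 0, hs 4 0,
    hs 2 1, hs 3 1, hs 4 1, hs 3 2, hs 4 2, hs 4 3] at c0 c1 c2 c3 c4
  have hP : PP (pp x t) ≠ 0 := by simp [PP, *]
  obtain ⟨u, hu0⟩ : ∃ u, u = (∏ i, (bb x i + et x)) / PP (pp x t) := ⟨_, rfl⟩
  have hu : u * PP (pp x t) = ∏ i, (bb x i + et x) := by rw [hu0, div_mul_cancel₀ _ hP]
  have hl : la x t = u / ee x t ^ 3 := by rw [la, hu0]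
  simp only [Fin.prod_univ_five] at hρ hu
  have hu2 : u ^ 2 = cc x t 0 * cc x t 1 * cc x t 2 * cc x t 3 * cc x t 4 := by
    apply mul_right_cancel₀ (pow_ne_zero 2 hP)
    rw [← mul_pow, hu]
    calc _ = (bb x 0 ^ 2 - et x ^ 2) * (bb x 1 ^ 2 - et x ^ 2) * (bb x 2 ^ 2 - et x ^ 2) *
          (bb x 3 ^ 2 - et x ^ 2) * (bb x 4 ^ 2 - et x ^ 2) := by
          rw [sq]
          conv_lhs => rhs; rw [hρ]
          ring
      _ = _ := by
          rw [← c0, ← c1, ← c2, ← c3, ← c4, PP]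
          ring
  rw [PP] at hu
  have hr : ∀ i (q : F), cc x t i * q = bb x i ^ 2 - et x ^ 2 → bt x t i ^ 2 - (la x t * et x) ^ 2 =
      aa x t i * (aa x t 0 * aa x t 1 * aa x t 2 * aa x t 3 * aa x t 4) * q := fun i q h => by
    simp only [bt, aa, hl]
    field_simp
    linear_combination -u ^ 2 * h + cc x t i * q * hu2
  refine ⟨hs, N.pp0, N.a0, hr 0 _ c0, hr 1 _ c1, hr 3 _ c3, hr 4 _ c4, ?_, ?_, ?_, ?_⟩ <;>
    simp only [bt, aa, hl]
  · exact s_aux2 (q1 := pp x t 0 2 * pp x t 1 2 * pp x t 2 4)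
      (q2 := pp x t 0 3 * pp x t 1 3 * pp x t 3 4) two_ne_zero hη he (hc0 2) (hc0 3) q23
      (by simp [*]) (by simp [*]) (by linear_combination hρ) (by linear_combination hu)
      (by linear_combination hu2) (by linear_combination c2) (by linear_combination c3)
  · exact s_aux2 (q1 := pp x t 0 1 * pp x t 1 3 * pp x t 1 4)
      (q2 := pp x t 0 2 * pp x t 2 3 * pp x t 2 4) two_ne_zero hη he (hc0 1) (hc0 2) q12
      (by simp [*]) (by simp [*]) (by linear_combination hρ) (by linear_combination hu)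
      (by linear_combination hu2) (by linear_combination c1) (by linear_combination c2)
  · exact s_aux2 (q1 := pp x t 0 1 * pp x t 0 3 * pp x t 0 4)
      (q2 := pp x t 1 2 * pp x t 2 3 * pp x t 2 4) two_ne_zero hη he (hc0 0) (hc0 2) q02
      (by simp [*]) (by simp [*]) (by linear_combination hρ) (by linear_combination hu)
      (by linear_combination hu2) (by linear_combination c0) (by linear_combination c2)
  · exact s_aux2 (q1 := pp x t 0 2 * pp x t 1 2 * pp x t 2 3)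
      (q2 := pp x t 0 4 * pp x t 1 4 * pp x t 3 4) two_ne_zero hη he (hc0 2) (hc0 4) q24
      (by simp [*]) (by simp [*]) (by linear_combination hρ) (by linear_combination hu)
      (by linear_combination hu2) (by linear_combination c2) (by linear_combination c4)

end Pool.Agent.Work.MP_274868_ag
end
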