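import Mathlib

/-! The function field of the group `SL 5` times a nine-dimensional split torus. -/

namespace Pool.Agent.Work.MP_274868_ag

open Matrix

/-- names of coordinates: 25 matrix entries and nine further coordinates -/
abbrev Var : Type := (Fin 5 × Fin 5) ⊕ Fin 9

/-- the matrix part of a tuple -/
def mat {S : Type*} (f : Var → S) : Matrix (Fin 5) (Fin 5) S := of fun i j => f (.inl (i, j))

/-- conjugate the matrix part of a tuple by `h`, and keep the other nine coordinates -/
def conj {k S : Type*} [CommRing k] [CommRing S] [Algebra k S]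
    (h : SpecialLinearGroup (Fin 5) k) (f : Var → S) : Var → S :=
  Sum.elim (fun q => (h.1.map (algebraMap k S) * mat f * (h⁻¹).1.map (algebraMap k S)) q.1 q.2)
    fun j => f (.inr j)

/-- the ideal generated by the determinant minus one -/
noncomputable def rel (k : Type*) [Field k] : Ideal (MvPolynomial Var k) :=
  Ideal.span {(mat (MvPolynomial.X : Var → MvPolynomial Var k)).det - 1}

/-- the coordinate ring of `SL 5` times affine nine-space -/
def Aff (k : Type*) [Field k] : Type _ := MvPolynomial Var k ⧸ rel k

noncomputable instance affRing (k : Type*) [Field k] : CommRing (Aff k) :=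
  Ideal.Quotient.commRing (rel k)

noncomputable instance affAlg (k : Type*) [Field k] : Algebra k (Aff k) :=
  Ideal.Quotient.algebra k

/-- the coordinate functions on `SL 5` times affine nine-space -/
noncomputable def acoord (k : Type*) [Field k] (v : Var) : Aff k :=
  Ideal.Quotient.mk (rel k) (MvPolynomial.X v)

/-- the product of the nine further coordinates -/
noncomputable def tprod (k : Type*) [Field k] : Aff k := ∏ j, acoord k (.inr j)

/-- the coordinate ring of `SL 5` times the nine-dimensional split torus -/
def Coord (k : Type*) [Field k] : Type _ := Localization.Away (tprod k)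

noncomputable instance coordRing (k : Type*) [Field k] : CommRing (Coord k) :=
  (inferInstance : CommRing (Localization.Away (tprod k)))

noncomputable instance coordAff (k : Type*) [Field k] : Algebra (Aff k) (Coord k) :=
  (inferInstance : Algebra (Aff k) (Localization.Away (tprod k)))

noncomputable instance coordAlg (k : Type*) [Field k] : Algebra k (Coord k) :=
  (inferInstance : Algebra k (Localization.Away (tprod k)))

variable {k : Type*} [Field k]

theorem map_mat {S T : Type*} (g : S → T) (f : Var → S) : (mat f).map g = mat (g ∘ f) := rfl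

theorem exists_lift {S : Type*} [CommRing S] [Algebra k S] (g : Var → S) (hg : (mat g).det = 1) :
    ∃ φ : Aff k →ₐ[k] S, ∀ v, φ (acoord k v) = g v := by
  refine ⟨Ideal.Quotient.liftₐ (rel k) (MvPolynomial.aeval g) fun a ha => ?_,
    fun v => MvPolynomial.aeval_X g v⟩
  obtain ⟨b, rfl⟩ := Ideal.mem_span_singleton'.1 ha
  have : MvPolynomial.aeval g ∘ (MvPolynomial.X : Var → MvPolynomial Var k) = g := by
    ext v
    simp
  rw [map_mul, map_sub, map_one, AlgHom.map_det, AlgHom.mapMatrix_apply, map_mat, this, hg,
    sub_self, mul_zero]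

theorem aff_ext {S : Type*} [CommRing S] [Algebra k S] {f g : Aff k →ₐ[k] S}
    (h : ∀ v, f (acoord k v) = g (acoord k v)) : f = g :=
  Ideal.Quotient.algHom_ext k (MvPolynomial.algHom_ext h)

theorem det_acoord : (mat (acoord k)).det = 1 := by
  have h := RingHom.map_det (Ideal.Quotient.mk (rel k)) (mat MvPolynomial.X)
  exact h.symm.trans (Ideal.Quotient.eq.2 (Ideal.subset_span rfl))

theorem det_X_ne : (mat (MvPolynomial.X : Var → MvPolynomial Var k)).det ≠ 0 := fun h => by
  have h1 := RingHom.map_det (MvPolynomial.eval (Sum.elim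
    (fun q => (1 : Matrix (Fin 5) (Fin 5) k) q.1 q.2) fun _ => 1)) (mat MvPolynomial.X)
  have h2 : (MvPolynomial.eval (Sum.elim (fun q => (1 : Matrix (Fin 5) (Fin 5) k) q.1 q.2)
    fun _ => 1)).mapMatrix (mat MvPolynomial.X) = 1 := by
    ext i j
    simp [mat]
  rw [h, h2] at h1
  simp at h1

theorem exists_emb : ∃ (φ : Aff k →ₐ[k] FractionRing (MvPolynomial Var k))
    (d : FractionRing (MvPolynomial Var k)), Function.Injective φ ∧ d ≠ 0 ∧
      (∀ i j, φ (acoord k (.inl (i, j))) =
        algebraMap (MvPolynomial Var k) _ (.X (.inl (i, j))) * if j = 0 then d else 1) ∧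
      ∀ j, φ (acoord k (.inr j)) = algebraMap (MvPolynomial Var k) _ (.X (.inr j)) := by
  set D := (mat (MvPolynomial.X : Var → MvPolynomial Var k)).det with hD
  let R := Localization.subalgebra (FractionRing (MvPolynomial Var k)) (Submonoid.powers D)
    (powers_le_nonZeroDivisors_of_noZeroDivisors det_X_ne)
  let ι := algebraMap (MvPolynomial Var k) R
  let d : R := IsLocalization.Away.invSelf D
  have hd : ι D * d = 1 := IsLocalization.Away.mul_invSelf D
  obtain ⟨φ, hφ⟩ := exists_lift (k := k) (S := R) (Sum.elim
    (fun q => ι (.X (.inl q)) * if q.2 = 0 then d else 1) fun j => ι (.X (.inr j))) (by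
      have : mat (Sum.elim (fun q => ι (.X (.inl q)) * if q.2 = 0 then d else 1)
          fun j => ι (.X (.inr j))) = ι.mapMatrix (mat .X) *
            diagonal fun j => if j = 0 then d else 1 := by
        ext i j : 1
        simp [mat]
      rw [this, det_mul, ← RingHom.map_det, det_diagonal, Finset.prod_ite_eq']
      simpa using hd)
  let π : MvPolynomial Var k →+* Aff k := Ideal.Quotient.mk (rel k)
  have h1 : π D = 1 := Ideal.Quotient.eq.2 (Ideal.subset_span rfl)
  let ψ : R →+* Aff k := IsLocalization.Away.lift D (h1 ▸ isUnit_one)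
  have hψ : ∀ p, ψ (ι p) = π p := IsLocalization.Away.lift_eq D _
  have h2 : ψ d = 1 := by
    have := congrArg ψ hd
    rwa [map_mul, hψ, h1, one_mul, map_one] at this
  let ψ' : R →ₐ[k] Aff k := ⟨ψ, fun c => hψ (.C c)⟩
  have h3 : ψ'.comp φ = AlgHom.id k _ := aff_ext (by
    rintro (q | j)
    · show ψ (φ _) = _
      rw [hφ, Sum.elim_inl, map_mul, hψ]
      split_ifs <;> simp only [h2, map_one, mul_one] <;> rfl
    · show ψ (φ _) = _
      rw [hφ, Sum.elim_inr, hψ]
      rfl)
  refine ⟨(R.val.restrictScalars k).comp φ, d, Subtype.val_injective.comp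
    (Function.LeftInverse.injective (g := ψ') (DFunLike.congr_fun h3)), fun h => ?_,
    fun i j => ?_, fun j => ?_⟩
  · rw [show d = 0 from Subtype.ext h, mul_zero] at hd
    exact zero_ne_one hd
  · show (φ _).1 = _
    rw [hφ, Sum.elim_inl]
    split_ifs <;> rfl
  · show (φ _).1 = _
    rw [hφ]
    rfl

instance affDomain : IsDomain (Aff k) := by
  obtain ⟨φ, _, h, _⟩ := exists_emb (k := k)
  exact h.isDomain φ.toRingHom

theorem prod_ne : tprod k ≠ 0 := by
  obtain ⟨φ, _, _, _, _, h⟩ := exists_emb (k := k)
  refine Finset.prod_ne_zero_iff.2 fun j _ h0 => ?_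
  have := h j
  rw [h0, map_zero, eq_comm, map_eq_zero_iff _ (IsFractionRing.injective _ _)] at this
  exact MvPolynomial.X_ne_zero _ this

instance coordDomain : IsDomain (Coord k) :=
  IsLocalization.isDomain_localization (powers_le_nonZeroDivisors_of_noZeroDivisors prod_ne)

/-- the coordinate functions, viewed in an algebra `K` over the coordinate ring -/
noncomputable def coord (k K : Type*) [Field k] [Field K] [Algebra (Coord k) K] (v : Var) : K :=
  algebraMap (Coord k) K (algebraMap (Aff k) (Coord k) (acoord k v))

end Pool.Agent.Work.MP_274868_ag
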