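import Pool.Agent.Work.MP_274868_ag.Model
import Pool.Agent.Work.MP_274868_ag.Defs

-- merged part: Pool.Agent.Work.MP_274868_ag.Group
section
/-! From the torus to the group. -/

namespace Pool.Agent.Work.MP_274868_ag

open Matrix Finset Polynomial

theorem map_poly {F G : Type*} [CommRing F] [CommRing G] (f : F →+* G) (c : Fin 5 → F)
    (A : Matrix (Fin 5) (Fin 5) F) :
    (∑ r, c r • A ^ (r : ℕ)).map f = ∑ r, f (c r) • A.map f ^ (r : ℕ) := by
  rw [← RingHom.mapMatrix_apply, map_sum]
  refine sum_congr rfl fun r _ => ?_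
  rw [← RingHom.mapMatrix_apply, ← map_pow]
  ext i j
  simp

theorem poly_comm {F : Type*} [CommRing F] {A B P : Matrix (Fin 5) (Fin 5) F} (h : A * P = P * B)
    (c : Fin 5 → F) : (∑ r, c r • A ^ (r : ℕ)) * P = P * ∑ r, c r • B ^ (r : ℕ) := by
  rw [sum_mul, mul_sum]
  refine sum_congr rfl fun r _ => ?_
  rw [smul_mul_assoc, mul_smul_comm, (SemiconjBy.pow_right (a := P) h.symm r).eq]

theorem poly_diag {F : Type*} [CommRing F] (c d : Fin 5 → F) :
    ∑ r, c r • diagonal d ^ (r : ℕ) = diagonal fun i => ∑ r, c r * d i ^ (r : ℕ) := by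
  ext i j
  by_cases h : i = j <;> simp [diagonal_pow, Matrix.sum_apply, h]

theorem exists_eig {F : Type*} [Field F] {A : Matrix (Fin 5) (Fin 5) F} {d : Fin 5 → F}
    (hd : Function.Injective d) (h : A.charpoly = ∏ i, (X - C (d i))) :
    ∃ P : Matrix (Fin 5) (Fin 5) F, IsUnit P.det ∧ A * P = P * diagonal d := by
  have h1 : ∀ i, ∃ v ≠ 0, A *ᵥ v = d i • v := fun i => by
    obtain ⟨v, h0, hv⟩ := (exists_mulVec_eq_zero_iff (M := scalar _ (d i) - A)).2 (by
      rw [← eval_charpoly, h, eval_prod]
      exact prod_eq_zero (mem_univ i) (by simp))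
    refine ⟨v, h0, ?_⟩
    rw [sub_mulVec, sub_eq_zero] at hv
    rw [← hv]
    ext l
    simp [mulVec_diagonal]
  choose v h0 hv using h1
  refine ⟨(of v)ᵀ, (isUnit_iff_isUnit_det _).1 (linearIndependent_cols_iff_isUnit.1
    (Module.End.eigenvectors_linearIndependent' (toLin' A) d hd v fun i =>
      ⟨Module.End.mem_eigenspace_iff.2 (hv i), h0 i⟩)), ?_⟩
  ext l i
  have := congrFun (hv i) l
  rw [mul_diagonal, mul_comm]
  exact this

theorem ext_five {F : Type*} [Field F] {P Q : F[X]} (hP : P.Monic ∧ P.natDegree = 5)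
    (hQ : Q.Monic ∧ Q.natDegree = 5) (h0 : P.coeff 0 = Q.coeff 0)
    (h : ∀ i : Fin 4, P.coeff (i + 1) = Q.coeff (i + 1)) : P = Q := by
  ext r
  rcases coeff_cases r with rfl | ⟨i, rfl⟩ | rfl | h5
  · exact h0
  · exact h i
  · have h1 := hP.1.coeff_natDegree
    have h2 := hQ.1.coeff_natDegree
    rw [hP.2] at h1
    rw [hQ.2] at h2
    rw [h1, h2]
  · rw [coeff_eq_zero_of_natDegree_lt (hP.2.trans_lt h5),
      coeff_eq_zero_of_natDegree_lt (hQ.2.trans_lt h5)]

variable {k K : Type*} [Field k] [Field K] [Algebra k K]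

theorem val_mem {L : IntermediateField k K} (z : L) : L.val.toRingHom z ∈ L := z.2

theorem lift_mat {L : IntermediateField k K} {A : Matrix (Fin 5) (Fin 5) K} (h : ∀ i j, A i j ∈ L) :
    ∃ B : Matrix (Fin 5) (Fin 5) L, A = B.map L.val.toRingHom :=
  ⟨of fun i j => ⟨A i j, h i j⟩, rfl⟩

theorem fix_adjoin {S : Set K} (σ : K →ₐ[k] K) (hS : ∀ s ∈ S, σ s = s) {z : K}
    (hz : z ∈ IntermediateField.adjoin k S) : σ z = z := by
  induction hz using IntermediateField.adjoin_induction with
  | mem x hx => exact hS x hx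
  | algebraMap x => exact σ.commutes x
  | add x y _ _ h1 h2 => rw [map_add, h1, h2]
  | inv x _ h1 => rw [map_inv₀, h1]
  | mul x y _ _ h1 h2 => rw [map_mul, h1, h2]

theorem group [CharZero k] {c : Var → K} (h1 : (mat c).det = 1)
    (h2 : ∀ L : IntermediateField k K, (∀ v, c v ∈ L) → L = ⊤)
    (h3 : AlgebraicIndependent k (Sum.elim (fun i : Fin 4 => (mat c).charpoly.coeff (i + 1))
      fun j => c (.inr j))) {u : {v : Var // v ≠ .inl (0, 0)} → K} (h4 : AlgebraicIndependent k u) :
    ∃ f : Var → K, (mat f).trace = 0 ∧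
      AlgebraicIndependent k (fun v : {v : Var // v ≠ .inl (0, 0)} => f v) ∧
      (∀ (h : SpecialLinearGroup (Fin 5) k) (σ : K →ₐ[k] K), σ ∘ c = conj h c → σ ∘ f = conj h f) ∧
      FiniteDimensional (IntermediateField.adjoin k (Set.range f)) K ∧
      Module.finrank (IntermediateField.adjoin k (Set.range f)) K ≤ 2 := by
  obtain ⟨x, t, hx1, hxi, ⟨a, s, η, y, w, ha0, hy, hw, hM1, hM2⟩, hind, halg⟩ := model k
  let ι := IsScalarTower.toAlgHom k K (AlgebraicClosure K)
  have hι : Function.Injective ι := ι.injective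
  obtain ⟨j, hj⟩ := exists_hom hind (h3.map' hι) halg
  have hmap : ∀ z : Fin 5 → TF k, (∏ i, (X - C (z i))).map j.toRingHom =
      ∏ i, (X - C (j (z i))) := fun z => by simp [Polynomial.map_prod]
  have hch : ((mat c).map ι.toRingHom).charpoly = ∏ i, (X - C (j (x i))) := by
    refine ext_five ⟨charpoly_monic _, by simp⟩ (deg_five _) ?_ fun i => ?_
    · have := det_eq_sign_charpoly_coeff ((mat c).map ι.toRingHom)
      rw [← RingHom.mapMatrix_apply, ← RingHom.map_det, h1, map_one, Fintype.card_fin,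
        RingHom.mapMatrix_apply] at this
      rw [coeff_zero_five (by rw [← map_prod, hx1, map_one])]
      linear_combination this
    · rw [charpoly_map, ← hmap, coeff_map, coeff_map]
      exact (hj (.inl i)).symm
  obtain ⟨P, hP, hXP⟩ := exists_eig (j.injective.comp hxi) hch
  have tr : ∀ (L : IntermediateField k K) z, z ∈ (L.map ι).comap j ↔ ∃ z' ∈ L, ι z' = j z :=
    fun L z => Iff.rfl
  have co : ∀ (L : IntermediateField k K) (A : Matrix (Fin 5) (Fin 5) K) (z : Fin 5 → TF k),
      (A.map ι.toRingHom).charpoly = ∏ i, (X - C (j (z i))) → (∀ r, A.charpoly.coeff r ∈ L) →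
        ∀ r, (∏ i, (X - C (z i))).coeff r ∈ (L.map ι).comap j := fun L A z h hL r => by
    refine (tr _ _).2 ⟨_, hL r, ?_⟩
    rw [charpoly_map, ← hmap] at h
    simpa using congrArg (fun q => q.coeff r) h
  obtain ⟨m1, m2, m3⟩ := hM1 _ (co (IntermediateField.adjoin k (Set.range (mat c).charpoly.coeff ∪
    Set.range fun l => c (.inr l))) _ _ hch fun r =>
      IntermediateField.subset_adjoin k _ (Or.inl ⟨r, rfl⟩)) fun l => (tr _ _).2
        ⟨_, IntermediateField.subset_adjoin k _ (Or.inr ⟨l, rfl⟩), (hj (.inr l)).symm⟩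
  simp only [tr] at m1 m2 m3
  choose y' hy1 hy2 using m1
  choose s' hs1 hs2 using m2
  obtain ⟨η', he1, he2⟩ := m3
  obtain ⟨f, hf1, hf2⟩ : ∃ f : Var → K, mat f = ∑ r, y' r • mat c ^ (r : ℕ) ∧
      ∀ l, f (.inr l) = s' l :=
    ⟨Sum.elim (fun q => (∑ r, y' r • mat c ^ (r : ℕ)) q.1 q.2) s', rfl, fun _ => rfl⟩
  have hYP : (mat f).map ι.toRingHom * P = P * diagonal fun i => j (a i) := by
    rw [hf1, map_poly, poly_comm hXP, poly_diag]
    simp [hy, hy2]
  have hY : (mat f).map ι.toRingHom = P * (diagonal fun i => j (a i)) * P⁻¹ := by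
    rw [← hYP, mul_nonsing_inv_cancel_right _ _ hP]
  have hch' : ((mat f).map ι.toRingHom).charpoly = ∏ i, (X - C (j (a i))) := by
    rw [hY, charpoly_mul_comm, nonsing_inv_mul_cancel_left _ _ hP, charpoly_diagonal]
  have htr : (mat f).trace = 0 := by
    apply hι
    have := AddMonoidHom.map_trace ι.toRingHom (mat f)
    rw [hY, trace_mul_comm, nonsing_inv_mul_cancel_left _ _ hP, trace_diagonal, ← map_sum,
      ha0] at this
    simpa using this
  set L := IntermediateField.adjoin k (Set.range f) with hL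
  have hfL : ∀ v, f v ∈ L := fun v => IntermediateField.subset_adjoin k _ ⟨v, rfl⟩
  have hM : ∀ L' : IntermediateField k K, L ≤ L' → _ := fun L' h => hM2 _ (co L' _ _ hch' fun r => by
    obtain ⟨B, hB⟩ := lift_mat (A := mat f) fun i l => h (hfL (.inl (i, l)))
    rw [hB, charpoly_map, coeff_map]
    exact val_mem _) fun l => (tr _ _).2
      ⟨_, h (hfL (.inr l)), (congrArg ι (hf2 l)).trans (hs2 l)⟩
  have hη : η' ^ 2 ∈ L := by
    obtain ⟨z, h1, h2⟩ := (tr _ _).1 (hM L le_rfl).1
    rw [map_pow, ← he2, ← map_pow] at h2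
    exact hι h2 ▸ h1
  have hint : (X ^ 2 - C (⟨_, hη⟩ : L)).Monic := monic_X_pow_sub_C _ two_ne_zero
  have hroot : aeval η' (X ^ 2 - C (⟨_, hη⟩ : L)) = 0 := by simp
  have htop : IntermediateField.adjoin L {η'} = ⊤ := by
    have hle : L ≤ (IntermediateField.adjoin L {η'}).restrictScalars k := fun z hz =>
      (IntermediateField.adjoin L {η'}).algebraMap_mem ⟨z, hz⟩
    obtain ⟨m4, m5⟩ := (hM _ hle).2 ((tr _ _).2
      ⟨_, IntermediateField.mem_adjoin_simple_self L η', he2⟩)
    simp only [tr] at m4 m5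
    choose w' hw1 hw2 using m4
    have hX : mat c = ∑ r, w' r • mat f ^ (r : ℕ) := by
      apply Matrix.map_injective (f := ι.toRingHom) hι
      dsimp only
      apply ((isUnit_iff_isUnit_det _).2 hP).mul_right_cancel
      rw [hXP, map_poly, poly_comm hYP, poly_diag]
      simp [hw2, ← map_pow, ← map_mul, ← map_sum, ← hw, Function.comp_def]
    refine IntermediateField.restrictScalars_eq_top_iff.1 (h2 _ ?_)
    rintro (⟨i, l⟩ | l)
    · obtain ⟨B, hB⟩ := lift_mat (A := mat f) fun i l => hle (hfL (.inl (i, l)))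
      have := map_poly (IntermediateField.val _).toRingHom (fun r => ⟨w' r, hw1 r⟩) B
      rw [← hB] at this
      have e : c (.inl (i, l)) = _ := congrFun (congrFun (hX.trans this.symm) i) l
      rw [e, map_apply]
      exact val_mem _
    · obtain ⟨z, h1, h2⟩ := m5 l
      exact mem_eq h1 (hι (h2.trans (hj (.inr l))))
  have hI : IsIntegral L η' := ⟨_, hint, hroot⟩
  have hfd : FiniteDimensional L K := by
    have := IntermediateField.adjoin.finiteDimensional hI
    rw [htop] at this
    exact IntermediateField.topEquiv.toLinearEquiv.finiteDimensional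
  refine ⟨f, htr, indep_of_alg h4 fun e => ?_, fun h σ hσ => ?_, hfd, ?_⟩
  · have : IntermediateField.adjoin k (Set.range fun v : {v : Var // v ≠ .inl (0, 0)} => f v) =
        L := by
      refine le_antisymm (IntermediateField.adjoin_le_iff.2 (Set.range_subset_iff.2 fun v => hfL v))
        (IntermediateField.adjoin_le_iff.2 (Set.range_subset_iff.2 fun v => ?_))
      by_cases hv : v = .inl (0, 0)
      · rw [trace, Fin.sum_univ_succ, add_eq_zero_iff_eq_neg] at htr
        rw [hv]
        exact mem_eq (neg_mem (sum_mem fun i _ => IntermediateField.subset_adjoin k _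
          ⟨⟨.inl (i.succ, i.succ), by simp⟩, rfl⟩)) htr.symm
      · exact IntermediateField.subset_adjoin k _ ⟨⟨v, hv⟩, rfl⟩
    rw [this]
    exact Algebra.IsAlgebraic.isAlgebraic e
  · have e1 : (mat c).map σ.toRingHom =
        h.1.map (algebraMap k K) * mat c * (h⁻¹).1.map (algebraMap k K) := congrArg mat hσ
    have e2 : (h⁻¹).1.map (algebraMap k K) * h.1.map (algebraMap k K) = 1 := by
      rw [← Matrix.map_mul, show (h⁻¹).1 * h.1 = 1 from congrArg Subtype.val (inv_mul_cancel h)]
      simp
    have e3 : ∀ z ∈ IntermediateField.adjoin k (Set.range (mat c).charpoly.coeff ∪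
        Set.range fun l => c (.inr l)), σ z = z := fun z => fix_adjoin σ (by
      rintro _ (⟨r, rfl⟩ | ⟨l, rfl⟩)
      · have := charpoly_map (mat c) σ.toRingHom
        rw [e1, charpoly_mul_comm, ← mul_assoc, e2, one_mul] at this
        simpa using congrArg (fun q => q.coeff r) this.symm
      · exact congrFun hσ (.inr l))
    have e4 : (mat f).map σ.toRingHom =
        h.1.map (algebraMap k K) * mat f * (h⁻¹).1.map (algebraMap k K) := by
      rw [hf1, ← poly_comm (A := (mat c).map σ.toRingHom) (by rw [e1, mul_assoc, e2, mul_one]),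
        mul_assoc, mul_eq_one_comm.1 e2, mul_one, map_poly]
      exact sum_congr rfl fun r _ => congrArg (· • _) (e3 _ (hy1 r))
    funext v
    rcases v with ⟨i, l⟩ | l
    · exact congrFun (congrFun e4 i) l
    · show σ (f _) = f _
      rw [hf2, e3 _ (hs1 l)]
  · rw [← IntermediateField.finrank_top', ← htop, IntermediateField.adjoin.finrank hI]
    exact (natDegree_le_natDegree (minpoly.min L η' hint hroot)).trans natDegree_X_pow_sub_C.le

end Pool.Agent.Work.MP_274868_ag
end

-- merged part: Pool.Agent.Work.MP_274868_ag.Field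
section
/-! Properties of the function field of the group. -/

namespace Pool.Agent.Work.MP_274868_ag

open Matrix Finset Polynomial

variable {k : Type*} [Field k]

instance : IsScalarTower k (Aff k) (Coord k) :=
  (inferInstance : IsScalarTower k (Aff k) (Localization.Away (tprod k)))

instance : IsLocalization (Submonoid.powers (tprod k)) (Coord k) :=
  (inferInstance : IsLocalization (Submonoid.powers (tprod k)) (Localization.Away (tprod k)))

variable {K : Type*} [Field K] [Algebra (Aff k) K]

theorem isFrac [Algebra (Coord k) K] [IsFractionRing (Coord k) K]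
    [IsScalarTower (Aff k) (Coord k) K] : IsFractionRing (Aff k) K := by
  have aff_inj : Function.Injective (algebraMap (Aff k) K) := by
    rw [IsScalarTower.algebraMap_eq (Aff k) (Coord k) K]
    exact (IsFractionRing.injective (Coord k) K).comp (IsLocalization.injective (Coord k)
      (powers_le_nonZeroDivisors_of_noZeroDivisors prod_ne))
  have : FaithfulSMul (Aff k) K := (faithfulSMul_iff_algebraMap_injective _ _).2 aff_inj
  have h : ∀ p : Coord k, ∃ a b : Aff k,
      algebraMap _ K p = algebraMap _ K a / algebraMap _ K b := fun p => by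
    obtain ⟨⟨a, b⟩, h⟩ := IsLocalization.surj (Submonoid.powers (tprod k)) p
    refine ⟨a, b, eq_div_of_mul_eq ((map_ne_zero_iff _ aff_inj).2 (nonZeroDivisors.ne_zero
      (powers_le_nonZeroDivisors_of_noZeroDivisors prod_ne b.2))) ?_⟩
    rw [IsScalarTower.algebraMap_apply (Aff k) (Coord k) K, ← map_mul, h,
      ← IsScalarTower.algebraMap_apply]
  refine IsFractionRing.of_field _ _ fun z => ?_
  obtain ⟨p, q, _, rfl⟩ := IsFractionRing.div_surjective (A := Coord k) z
  obtain ⟨a, b, h1⟩ := h p
  obtain ⟨c, d, h2⟩ := h q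
  exact ⟨a * d, b * c, by rw [h1, h2, div_div_div_eq, map_mul, map_mul]⟩

/-- the coordinates as rational functions -/
noncomputable def crd (k K : Type*) [Field k] [Field K] [Algebra (Aff k) K] (v : Var) : K :=
  algebraMap (Aff k) K (acoord k v)

theorem coord_eq (v : Var) : crd k K v = algebraMap (Aff k) K (acoord k v) := rfl

theorem mat_coord : mat (crd k K) = (mat (acoord k)).map (algebraMap (Aff k) K) := by
  ext i j
  exact coord_eq _

theorem det_coord : (mat (crd k K)).det = 1 := by
  rw [mat_coord, ← RingHom.mapMatrix_apply, ← RingHom.map_det, det_acoord, map_one]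

variable [Algebra k K] [IsScalarTower k (Aff k) K] [IsFractionRing (Aff k) K]

theorem coord_gen (L : IntermediateField k K) (h : ∀ v, crd k K v ∈ L) : L = ⊤ := by
  refine gen_top (Aff k) K (z := acoord k) (fun a => ?_) fun v => h v
  obtain ⟨p, rfl⟩ := Ideal.Quotient.mk_surjective a
  exact ⟨p, DFunLike.congr_fun (MvPolynomial.algHom_ext (g := Ideal.Quotient.mkₐ k (rel k))
    fun v => MvPolynomial.aeval_X _ v) p⟩

theorem indep_char [CharZero k] : AlgebraicIndependent k (Sum.elim
    (fun i : Fin 4 => (mat (crd k K)).charpoly.coeff (i + 1)) fun j => crd k K (.inr j)) := by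
  obtain ⟨x, t, hx1, _, _, hind, _⟩ := model k
  obtain ⟨δ, hδ⟩ := exists_lift (k := k) (Sum.elim (fun q => diagonal x q.1 q.2) t)
    ((det_diagonal (d := x)).trans hx1)
  have h1 : (mat (acoord k)).map δ.toRingHom = diagonal x := by
    ext i j
    exact hδ _
  have h2 : AlgebraicIndependent k (Sum.elim (fun i : Fin 4 =>
      (mat (acoord k)).charpoly.coeff (i + 1)) fun j => acoord k (.inr j)) := by
    refine .of_comp δ ?_
    have : δ ∘ (Sum.elim (fun i : Fin 4 => (mat (acoord k)).charpoly.coeff (i + 1))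
        fun j => acoord k (.inr j)) = cf x t := by
      funext v
      rcases v with i | j
      · have := charpoly_map (mat (acoord k)) δ.toRingHom
        rw [h1, charpoly_diagonal] at this
        simp [cf, this]
      · exact hδ _
    rwa [this]
  have h3 := h2.map' (f := IsScalarTower.toAlgHom k (Aff k) K) (IsFractionRing.injective _ _)
  refine (congrArg (fun q => AlgebraicIndependent k q) (funext ?_)).mp h3
  rintro (i | j)
  · simp [mat_coord, charpoly_map]
  · exact (coord_eq _).symm

theorem exists_indep : ∃ u : {v : Var // v ≠ .inl (0, 0)} → K, AlgebraicIndependent k u := by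
  obtain ⟨φ, d, hφ, hd, h1, h2⟩ := exists_emb (k := k)
  let ι := algebraMap (MvPolynomial Var k) (FractionRing (MvPolynomial Var k))
  have hz : AlgebraicIndependent k fun v => ι (.X v) := (MvPolynomial.algebraicIndependent_X _ k).map'
    (f := IsScalarTower.toAlgHom k _ (FractionRing (MvPolynomial Var k)))
    (IsFractionRing.injective _ _)
  have h0 : ι (.X (.inl (0, 0))) ≠ 0 := hz.ne_zero _
  let z : Var → FractionRing (MvPolynomial Var k) := fun v =>
    ι (.X v) / if v ≠ .inl (0, 0) ∧ ∃ i, v = .inl (i, 0) then ι (.X (.inl (0, 0))) else 1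
  have hz' : AlgebraicIndependent k z := indep_of_alg hz fun e => by
    refine alg_of_mem ((gen_top (MvPolynomial Var k) _ (z := MvPolynomial.X)
      (fun P => ⟨P, by simp⟩) fun v => ?_).ge IntermediateField.mem_top)
    have h3 : ∀ v, z v ∈ IntermediateField.adjoin k (Set.range z) := fun v =>
      IntermediateField.subset_adjoin k _ ⟨v, rfl⟩
    by_cases hv : v ≠ .inl (0, 0) ∧ ∃ i, v = .inl (i, 0)
    · refine mem_eq (mul_mem (h3 v) (h3 (.inl (0, 0)))) ?_
      simp only [z, if_pos hv]
      rw [if_neg (by simp), div_one, div_mul_cancel₀ _ h0]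
    · refine mem_eq (h3 v) ?_
      simp only [z, if_neg hv, div_one]
      rfl
  let φ' : K →ₐ[k] FractionRing (MvPolynomial Var k) := IsFractionRing.liftAlgHom hφ
  have h4 : ∀ v, φ' (crd k K v) = φ (acoord k v) := fun v => by simp [φ', coord_eq]
  refine ⟨fun v => crd k K v / if ∃ i, v.1 = .inl (i, 0) then crd k K (.inl (0, 0)) else 1,
    .of_comp φ' ((congrArg (fun q => AlgebraicIndependent k q) (funext ?_)).mp
      (hz'.comp Subtype.val Subtype.val_injective))⟩
  rintro ⟨⟨i, j⟩ | j, hv⟩
  · by_cases hj : j = 0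
    · subst hj
      simp [z, hv, h4, h1, ι, mul_div_mul_right _ _ hd]
    · simp [z, h4, h1, ι, hj]
  · simp [z, h4, h2, ι]

theorem map_conj {S T : Type*} [CommRing S] [CommRing T] [Algebra k S] [Algebra k T]
    (g : S →ₐ[k] T) (h : SpecialLinearGroup (Fin 5) k) (f : Var → S) :
    g ∘ conj h f = conj h (g ∘ f) := by
  funext v
  rcases v with ⟨i, j⟩ | j
  · simp [conj, mat, Matrix.mul_apply]
  · rfl

theorem coe_mul_one {S : Type*} [CommRing S] [Algebra k S] {u v : SpecialLinearGroup (Fin 5) k}
    (h : u * v = 1) : u.1.map (algebraMap k S) * v.1.map (algebraMap k S) = 1 := by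
  rw [← Matrix.map_mul, show u.1 * v.1 = 1 from congrArg Subtype.val h]
  simp

theorem conj_conj {S : Type*} [CommRing S] [Algebra k S] {u v : SpecialLinearGroup (Fin 5) k}
    (h : u * v = 1) (f : Var → S) : conj u (conj v f) = f := by
  funext w
  rcases w with ⟨i, j⟩ | j
  · have : u.1.map (algebraMap k S) * (v.1.map (algebraMap k S) * mat f *
        (v⁻¹).1.map (algebraMap k S)) * (u⁻¹).1.map (algebraMap k S) = mat f := by
      rw [← mul_assoc, ← mul_assoc, coe_mul_one h, one_mul, mul_assoc,
        coe_mul_one (by rw [← _root_.mul_inv_rev, h, inv_one]), mul_one]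
    exact congrFun (congrFun this i) j
  · rfl

theorem exists_conj (h : SpecialLinearGroup (Fin 5) k) :
    ∃ σ : K ≃ₐ[k] K, σ ∘ crd k K = conj h (crd k K) := by
  have h1 : ∀ u : SpecialLinearGroup (Fin 5) k, ∃ α : Aff k →ₐ[k] Aff k,
      α ∘ acoord k = conj u (acoord k) := fun u => by
    obtain ⟨α, hα⟩ := exists_lift (k := k) (conj u (acoord k)) (by
      show (u.1.map (algebraMap k _) * mat (acoord k) * (u⁻¹).1.map (algebraMap k _)).det = 1
      rw [det_mul, det_mul, det_acoord, mul_one, ← det_mul, coe_mul_one (mul_inv_cancel u),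
        det_one])
    exact ⟨α, funext hα⟩
  choose α hα using h1
  have h2 : ∀ u v, v * u = 1 → (α u).comp (α v) = AlgHom.id k _ := fun u v e => aff_ext fun w => by
    have : α u ∘ α v ∘ acoord k = acoord k := by rw [hα, map_conj, hα, conj_conj e]
    exact congrFun this w
  refine ⟨IsFractionRing.algEquivOfAlgEquiv (AlgEquiv.ofAlgHom (α h) (α h⁻¹)
    (h2 _ _ (inv_mul_cancel h)) (h2 _ _ (mul_inv_cancel h))), ?_⟩
  have h3 : crd k K = IsScalarTower.toAlgHom k (Aff k) K ∘ acoord k := funext coord_eq
  rw [h3, ← map_conj, ← hα]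
  funext v
  simp

end Pool.Agent.Work.MP_274868_ag
end
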