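import Pool.Agent.Work.MP_274868_ag.Torus

/-! The function field of the torus times affine nine-space. -/

namespace Pool.Agent.Work.MP_274868_ag

open Finset Polynomial

variable {k E Ω : Type*} [Field k] [Field E] [Field Ω] [Algebra k E] [Algebra k Ω]

theorem hom_ext {S : Set E} (hS : IntermediateField.adjoin k S = ⊤) {f g : E →ₐ[k] Ω}
    (h : ∀ s ∈ S, f s = g s) (z : E) : f z = g z := by
  have hz : z ∈ IntermediateField.adjoin k S := hS ▸ IntermediateField.mem_top
  induction hz using IntermediateField.adjoin_induction with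
  | mem x hx => exact h x hx
  | algebraMap x => rw [f.commutes, g.commutes]
  | add x y _ _ h1 h2 => rw [map_add, map_add, h1, h2]
  | inv x _ h1 => rw [map_inv₀, map_inv₀, h1]
  | mul x y _ _ h1 h2 => rw [map_mul, map_mul, h1, h2]

theorem exists_hom [IsAlgClosed Ω] {ι : Type} {y : ι → E} {z : ι → Ω}
    (hy : AlgebraicIndependent k y) (hz : AlgebraicIndependent k z)
    (h : ∀ e : E, IsAlgebraic (IntermediateField.adjoin k (Set.range y)) e) :
    ∃ j : E →ₐ[k] Ω, ∀ i, j (y i) = z i := by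
  obtain ⟨j, hj⟩ := IntermediateField.exists_algHom_of_splits'
    ((IsFractionRing.liftAlgHom (K := FractionRing (MvPolynomial ι k)) hz).comp hy.reprField)
    fun s => ⟨(h s).isIntegral, IsAlgClosed.splits _⟩
  refine ⟨j, fun i => ?_⟩
  have h1 := DFunLike.congr_fun hj
    (hy.aevalEquivField (algebraMap (MvPolynomial ι k) _ (MvPolynomial.X i)))
  have h2 := hy.aevalEquivField_algebraMap_apply_coe (MvPolynomial.X i)
  rw [MvPolynomial.aeval_X] at h2
  rw [← h2]
  refine h1.trans ?_
  simp [AlgebraicIndependent.reprField]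

theorem alg_of_mem {L : IntermediateField k E} {z : E} (h : z ∈ L) : IsAlgebraic L z :=
  isAlgebraic_algebraMap (⟨z, h⟩ : L)

theorem alg_of_coeff (L : IntermediateField k E) {P : E[X]} (hP : P ≠ 0) (hc : ∀ r, P.coeff r ∈ L)
    {z : E} (hz : P.eval z = 0) : IsAlgebraic L z := by
  obtain ⟨Q, rfl⟩ : P ∈ Polynomial.lifts (algebraMap L E) :=
    (lifts_iff_coeff_lifts _).2 fun r => ⟨⟨_, hc r⟩, rfl⟩
  refine ⟨Q, fun h => hP (by rw [h, map_zero]), ?_⟩
  rwa [coe_mapRingHom, eval_map_algebraMap] at hz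

theorem coeff_cases (r : ℕ) : r = 0 ∨ (∃ i : Fin 4, r = i + 1) ∨ r = 5 ∨ 5 < r := by
  by_cases h : 1 ≤ r ∧ r ≤ 4
  · exact Or.inr (Or.inl ⟨⟨r - 1, by omega⟩, by simp; omega⟩)
  · omega

theorem deg_five (x : Fin 5 → E) :
    (∏ i, (X - C (x i))).Monic ∧ (∏ i, (X - C (x i))).natDegree = 5 :=
  ⟨monic_prod_X_sub_C _ _, by rw [natDegree_finsetProd_X_sub_C_eq_card]; simp⟩

theorem coeff_zero_five {x : Fin 5 → E} (h : ∏ i, x i = 1) : (∏ i, (X - C (x i))).coeff 0 = -1 := by
  rw [coeff_zero_eq_eval_zero, eval_prod]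
  simp only [Fin.prod_univ_five, eval_sub, eval_X, eval_C] at h ⊢
  linear_combination -h

theorem gen_top (R : Type*) (K : Type*) [Field K] {σ : Type} [CommRing R] [Algebra k R]
    [Algebra R K] [Algebra k K] [IsScalarTower k R K] [IsFractionRing R K] {z : σ → R}
    (hz : Function.Surjective (MvPolynomial.aeval (R := k) z)) {L : IntermediateField k K}
    (h : ∀ v, algebraMap R K (z v) ∈ L) : L = ⊤ := by
  have h1 : ∀ P : MvPolynomial σ k, algebraMap R K (MvPolynomial.aeval z P) ∈ L := fun P => by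
    induction P using MvPolynomial.induction_on with
    | C c =>
      rw [MvPolynomial.aeval_C, ← IsScalarTower.algebraMap_apply]
      exact L.algebraMap_mem c
    | add p q h1 h2 => simpa using add_mem h1 h2
    | mul_X p n h1 => simpa using mul_mem h1 (h n)
  refine top_le_iff.1 fun e _ => ?_
  obtain ⟨p, q, _, rfl⟩ := IsFractionRing.div_surjective (A := R) e
  obtain ⟨p, rfl⟩ := hz p
  obtain ⟨q, rfl⟩ := hz q
  exact div_mem (h1 p) (h1 q)

/-- specialisation at a point -/
def spOf {R : Type*} [CommRing R] [CharZero k] (ι : R →+* E) (hι : Function.Injective ι)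
    (ev : R →+* k) : Sp E ℚ where
  R z r := ∃ p q, ev q ≠ 0 ∧ z * ι q = ι p ∧ r * ev q = ev p
  zero := ⟨0, 1, by simp⟩
  one := ⟨1, 1, by simp⟩
  add := by
    rintro a b r s ⟨p, q, h1, h2, h3⟩ ⟨p', q', h4, h5, h6⟩
    refine ⟨p * q' + p' * q, q * q', by simp [*], ?_, ?_⟩ <;>
      simp only [map_mul, map_add, Rat.cast_add]
    · linear_combination ι q' * h2 + ι q * h5
    · linear_combination ev q' * h3 + ev q * h6
  neg := by
    rintro a r ⟨p, q, h1, h2, h3⟩
    exact ⟨-p, q, h1, by simp [h2], by simp [h3]⟩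
  mul := by
    rintro a b r s ⟨p, q, h1, h2, h3⟩ ⟨p', q', h4, h5, h6⟩
    refine ⟨p * p', q * q', by simp [*], ?_, ?_⟩ <;> simp only [map_mul, Rat.cast_mul]
    · rw [← h2, ← h5]
      ring
    · rw [← h3, ← h6]
      ring
  div := by
    rintro a b r s ⟨p, q, h1, h2, h3⟩ ⟨p', q', h4, h5, h6⟩ hs
    have h7 : (s : k) ≠ 0 := Rat.cast_ne_zero.2 hs
    have h8 : ev p' ≠ 0 := h6 ▸ mul_ne_zero h7 h4
    have h9 : b ≠ 0 := by
      rintro rfl
      rw [zero_mul, eq_comm, map_eq_zero_iff _ hι] at h5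
      exact h8 (by rw [h5, map_zero])
    refine ⟨p * q', q * p', by simp [*], ?_, ?_⟩ <;> simp only [map_mul, Rat.cast_div]
    · rw [← h2, ← h5]
      field_simp
    · rw [← h3, ← h6]
      field_simp
  ne := by
    rintro a r ⟨p, q, h1, h2, h3⟩ hr rfl
    rw [zero_mul, eq_comm, map_eq_zero_iff _ hι] at h2
    rw [h2, map_zero] at h3
    exact mul_ne_zero (Rat.cast_ne_zero.2 hr) h1 h3

/-- the function field of the torus times affine nine-space -/
abbrev TF (k : Type*) [Field k] := FractionRing (MvPolynomial (Fin 4 ⊕ Fin 9) k)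

/-- symmetric coordinates -/
noncomputable def cf (x : Fin 5 → E) (t : Fin 9 → E) : Fin 4 ⊕ Fin 9 → E :=
  Sum.elim (fun i => (∏ i, (X - C (x i))).coeff (i + 1)) t

theorem model (k : Type*) [Field k] [CharZero k] : ∃ (x : Fin 5 → TF k) (t : Fin 9 → TF k),
    ∏ i, x i = 1 ∧ Function.Injective x ∧ Out k x t ∧ AlgebraicIndependent k (cf x t) ∧
      ∀ e : TF k, IsAlgebraic (IntermediateField.adjoin k (Set.range (cf x t))) e := by
  let ι := algebraMap (MvPolynomial (Fin 4 ⊕ Fin 9) k) (TF k)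
  have hι : Function.Injective ι := IsFractionRing.injective _ _
  let z : Fin 4 ⊕ Fin 9 → TF k := fun v => ι (MvPolynomial.X v)
  have hz : AlgebraicIndependent k z := (MvPolynomial.algebraicIndependent_X _ k).map'
    (f := IsScalarTower.toAlgHom k _ (TF k)) hι
  have z0 : ∀ v, z v ≠ 0 := hz.ne_zero
  let x : Fin 5 → TF k := Fin.snoc (fun i => z (.inl i)) (∏ i, z (.inl i))⁻¹
  let t : Fin 9 → TF k := fun j => z (.inr j)
  have hx : ∀ i : Fin 4, x i.castSucc = z (.inl i) := fun i => Fin.snoc_castSucc ..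
  have hx4 : x (Fin.last 4) = (∏ i, z (.inl i))⁻¹ := Fin.snoc_last ..
  have h0 : ∏ i, z (.inl i) ≠ 0 := prod_ne_zero_iff.2 fun i _ => z0 _
  have h1 : ∏ i, x i = 1 := by
    rw [Fin.prod_univ_castSucc]
    simp only [hx]
    exact mul_inv_cancel₀ h0
  have htop : ∀ L : IntermediateField k (TF k), (∀ i, x i ∈ L) → (∀ j, t j ∈ L) → L = ⊤ :=
    fun L h h' => gen_top (MvPolynomial (Fin 4 ⊕ Fin 9) k) _ (z := MvPolynomial.X)
      (fun P => ⟨P, by simp⟩) (by
        rintro (i | j)
        · exact mem_eq (h i.castSucc) (hx i)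
        · exact h' j)
  have hgen : IntermediateField.adjoin k (Set.range x ∪ Set.range t) = ⊤ :=
    htop _ (fun i => IntermediateField.subset_adjoin k _ (Or.inl ⟨i, rfl⟩))
      fun j => IntermediateField.subset_adjoin k _ (Or.inr ⟨j, rfl⟩)
  have hlast : ∀ w : Equiv.Perm (Fin 5), x (w (Fin.last 4)) = (∏ i : Fin 4, x (w i.castSucc))⁻¹ :=
    fun w => by
      apply eq_inv_of_mul_eq_one_right
      rw [← Fin.prod_univ_castSucc fun i => x (w i), Equiv.prod_comp w x, h1]
  have hw : ∀ w : Equiv.Perm (Fin 5),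
      AlgebraicIndependent k (Sum.elim (fun i : Fin 4 => x (w i.castSucc)) t) := fun w =>
    indep_of_alg hz fun e => by
      refine alg_of_mem ((htop _ (fun i => ?_) fun j => ?_).ge IntermediateField.mem_top)
      swap
      · exact IntermediateField.subset_adjoin k _ ⟨.inr j, rfl⟩
      have h : ∀ i : Fin 4, x (w i.castSucc) ∈ IntermediateField.adjoin k
          (Set.range (Sum.elim (fun i : Fin 4 => x (w i.castSucc)) t)) := fun i =>
        IntermediateField.subset_adjoin k _ ⟨.inl i, rfl⟩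
      obtain ⟨i, rfl⟩ := w.surjective i
      induction i using Fin.lastCases with
      | last => exact hlast w ▸ inv_mem (prod_mem fun i _ => h i)
      | cast i => exact h i
  let g : Equiv.Perm (Fin 5) → TF k →ₐ[k] TF k := fun w => IsFractionRing.liftAlgHom (hw w)
  have gz : ∀ w v, g w (z v) = Sum.elim (fun i : Fin 4 => x (w i.castSucc)) t v := fun w v => by
    simp [g, z, ι]
  have gt : ∀ w j, g w (t j) = t j := fun w j => gz w (.inr j)
  have gx : ∀ w i, g w (x i) = x (w i) := fun w i => by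
    induction i using Fin.lastCases with
    | last =>
      rw [hlast w, hx4, map_inv₀, map_prod]
      simp only [gz, Sum.elim_inl]
    | cast i => rw [hx, gz, Sum.elim_inl]
  let A : Act k (TF k) := ⟨g, hom_ext hgen (g := AlgHom.id k _) (by
      rintro _ (⟨i, rfl⟩ | ⟨j, rfl⟩) <;> simp [gx, gt]),
    fun u v => hom_ext hgen (f := (g u).comp (g v)) (by
      rintro _ (⟨i, rfl⟩ | ⟨j, rfl⟩) <;> simp [gx, gt])⟩
  let S := spOf ι hι (MvPolynomial.eval fun v =>
    ((Sum.elim (fun i : Fin 4 => xq i.castSucc) tq v : ℚ) : k))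
  have hS : ∀ v, S.R (z v) (Sum.elim (fun i : Fin 4 => xq i.castSucc) tq v) := fun v =>
    ⟨MvPolynomial.X v, 1, by simp [z]⟩
  have N : ND x t := S.nd (fun i => by
    induction i using Fin.lastCases with
    | last =>
      have := S.div S.one (S.prod univ fun i => hS (.inl i)) (by decide +kernel)
      rwa [one_div, ← hx4, show (1 / ∏ i : Fin 4, Sum.elim (fun i : Fin 4 => xq i.castSucc) tq
        (.inl i)) = xq (Fin.last 4) by decide +kernel] at this
    | cast i => exact hx i ▸ hS (.inl i)) (fun j => hS (.inr j)) nd_q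
  have halg : ∀ e : TF k, IsAlgebraic (IntermediateField.adjoin k (Set.range (cf x t))) e :=
    alg_of_gen hgen (by
      rintro _ (⟨i, rfl⟩ | ⟨j, rfl⟩)
      · refine alg_of_coeff _ (deg_five x).1.ne_zero (fun r => ?_)
          (by rw [eval_prod]; exact prod_eq_zero (mem_univ i) (by simp))
        rcases coeff_cases r with rfl | ⟨i, rfl⟩ | rfl | h
        · exact coeff_zero_five h1 ▸ neg_mem (one_mem _)
        · exact IntermediateField.subset_adjoin k _ ⟨.inl i, rfl⟩
        · have := (deg_five x).1.coeff_natDegree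
          rw [(deg_five x).2] at this
          exact this ▸ one_mem _
        · exact coeff_eq_zero_of_natDegree_lt ((deg_five x).2.trans_lt h) ▸ zero_mem _
      · exact alg_of_mem (IntermediateField.subset_adjoin k _ ⟨.inr j, rfl⟩))
  refine ⟨x, t, h1, fun i j h => ?_, torus (A := A) gx (fun j w => gt w j) h1 N hgen,
    indep_of_alg hz halg, halg⟩
  by_contra hn
  exact N.xi i j hn (sub_eq_zero.2 h)

end Pool.Agent.Work.MP_274868_ag
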