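import Pool.Agent.Work.MP_274868_ag.Data

/-! General position is inherited from a specialisation. -/

namespace Pool.Agent.Work.MP_274868_ag

open Matrix Finset

/-- a specialisation -/
structure Sp (F G : Type*) [Field F] [Field G] where
  R : F → G → Prop
  zero : R 0 0
  one : R 1 1
  add : ∀ {a b r s}, R a r → R b s → R (a + b) (r + s)
  neg : ∀ {a r}, R a r → R (-a) (-r)
  mul : ∀ {a b r s}, R a r → R b s → R (a * b) (r * s)
  div : ∀ {a b r s}, R a r → R b s → s ≠ 0 → R (a / b) (r / s)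
  ne : ∀ {a r}, R a r → r ≠ 0 → a ≠ 0

variable {F G : Type*} [Field F] [Field G] (S : Sp F G)

theorem Sp.sub {a b : F} {r s : G} (h1 : S.R a r) (h2 : S.R b s) : S.R (a - b) (r - s) := by
  rw [sub_eq_add_neg, sub_eq_add_neg]
  exact S.add h1 (S.neg h2)

theorem Sp.pow {a : F} {r : G} (h : S.R a r) (n : ℕ) : S.R (a ^ n) (r ^ n) := by
  induction n with
  | zero => simpa using S.one
  | succ n ih =>
    rw [pow_succ, pow_succ]
    exact S.mul ih h

theorem Sp.sum {ι : Type} (s : Finset ι) {f : ι → F} {g : ι → G} (h : ∀ i, S.R (f i) (g i)) :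
    S.R (∑ i ∈ s, f i) (∑ i ∈ s, g i) := by
  induction s using Finset.cons_induction with
  | empty => simpa using S.zero
  | cons a s ha ih =>
    rw [sum_cons, sum_cons]
    exact S.add (h a) ih

theorem Sp.prod {ι : Type} (s : Finset ι) {f : ι → F} {g : ι → G} (h : ∀ i, S.R (f i) (g i)) :
    S.R (∏ i ∈ s, f i) (∏ i ∈ s, g i) := by
  induction s using Finset.cons_induction with
  | empty => simpa using S.one
  | cons a s ha ih =>
    rw [prod_cons, prod_cons]
    exact S.mul (h a) ih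

theorem Sp.nm {a b : Fin 5 → F} {p : Fin 5 → Fin 5 → F} {a' b' : Fin 5 → G}
    {p' : Fin 5 → Fin 5 → G} (ha : ∀ i, S.R (a i) (a' i)) (hp : ∀ i j, S.R (p i j) (p' i j))
    (hb : ∀ i, S.R (b i) (b' i)) (h0 : ∀ i j, i ≠ j → p' i j ≠ 0) (i j : Fin 3) :
    S.R (Nm a p b i j) (Nm a' p' b' i j) := by
  have h : ∀ i j l m n q, l ≠ m → n ≠ q → S.R ((b i + b j) / p l m / p n q)
      ((b' i + b' j) / p' l m / p' n q) := fun i j l m n q h1 h2 =>
    S.div (S.div (S.add (hb i) (hb j)) (hp l m) (h0 l m h1)) (hp n q) (h0 n q h2)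
  have h34 := h0 3 4 (by decide)
  fin_cases i <;> fin_cases j
  · exact S.div (S.mul (S.mul (ha 0) (ha 2)) (hp 0 2)) (hp 3 4) h34
  · exact S.neg (h 2 3 2 3 3 4 (by decide) (by decide))
  · exact h 0 4 0 4 3 4 (by decide) (by decide)
  · exact h 2 4 2 4 3 4 (by decide) (by decide)
  · exact S.neg (S.div (S.mul (S.mul (S.mul (S.mul (ha 1) (ha 2)) (ha 3)) (ha 4)) (hp 1 2))
      (hp 3 4) h34)
  · exact S.neg (S.div (S.mul (ha 4) (S.div (S.add (hb 1) (hb 3)) (hp 1 3) (h0 1 3 (by decide))))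
      (hp 3 4) h34)
  · exact h 0 3 0 3 3 4 (by decide) (by decide)
  · exact S.div (S.mul (ha 3) (S.div (S.add (hb 1) (hb 4)) (hp 1 4) (h0 1 4 (by decide))))
      (hp 3 4) h34
  · exact S.div (S.mul (S.mul (S.mul (S.mul (ha 0) (ha 1)) (ha 3)) (ha 4)) (hp 0 1)) (hp 3 4) h34

theorem Sp.nd {x : Fin 5 → F} {t : Fin 9 → F} {x' : Fin 5 → G} {t' : Fin 9 → G}
    (hx : ∀ i, S.R (x i) (x' i)) (ht : ∀ j, S.R (t j) (t' j)) (N : ND x' t') : ND x t := by
  have h1 : ∀ i, S.R (x i - 1) (x' i - 1) := fun i => S.sub (hx i) S.one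
  have hbe : ∀ i, S.R (be x i) (be x' i) := fun i => S.div (S.add (hx i) S.one) (h1 i) (N.x1 i)
  have het : S.R (et x) (et x') := S.sum _ hbe
  have hbb : ∀ i, S.R (bb x i) (bb x' i) := fun i => S.mul (hbe i) het
  have hTh : ∀ m n, S.R (Th t m n) (Th t' m n) := fun m n => by
    fin_cases m <;> fin_cases n <;> first | exact S.one | exact ht _
  have hpp : ∀ i j, S.R (pp x t i j) (pp x' t' i j) := fun i j =>
    S.sum _ fun n => S.mul (S.sum _ fun m => S.mul (hTh m n) (S.pow (hbb i) _)) (S.pow (hbb j) _)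
  have hcc : ∀ i, S.R (cc x t i) (cc x' t' i) := fun i =>
    S.div (S.sub (S.pow (hbb i) 2) (S.pow het 2)) (S.prod _ (hpp i))
      (prod_ne_zero_iff.2 fun j hj => N.pp0 i j (ne_of_mem_erase hj).symm)
  have hee : S.R (ee x t) (ee x' t') := S.sum _ hcc
  have haa : ∀ i, S.R (aa x t i) (aa x' t' i) := fun i => S.div (hcc i) hee N.ee0
  have hPP : S.R (PP (pp x t)) (PP (pp x' t')) := by
    unfold PP
    repeat' first | exact hpp _ _ | apply S.mul
  have hP0 : PP (pp x' t') ≠ 0 := by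
    unfold PP
    repeat' first | exact N.pp0 _ _ (by decide) | apply mul_ne_zero
  have hla : S.R (la x t) (la x' t') :=
    S.div (S.div (S.prod _ fun i => S.add (hbb i) het) hPP hP0) (S.pow hee 3) (pow_ne_zero 3 N.ee0)
  have hai : ∀ i j, S.R (aa x t i - aa x t j) (aa x' t' i - aa x' t' j) := fun i j =>
    S.sub (haa i) (haa j)
  have hM : ∀ i j, S.R (Mm x t i j) (Mm x' t' i j) := fun i j =>
    S.sub (S.nm haa hpp (fun i => S.mul hla (hbb i)) N.pp0 i j)
      (S.nm haa (fun i j => S.div (S.pow (hai i j) 2) (S.mul (haa i) (haa j))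
        (mul_ne_zero (N.a0 i) (N.a0 j))) (fun i => S.div (S.prod _ (hai i)) (haa i) (N.a0 i))
        (fun i j h => div_ne_zero (pow_ne_zero 2 (N.ai i j h)) (mul_ne_zero (N.a0 i) (N.a0 j))) i j)
  have hdet : S.R (Mm x t).det (Mm x' t').det := by
    rw [det_fin_three, det_fin_three]
    repeat' first | exact hM _ _ | apply S.sub | apply S.add | apply S.mul
  exact ⟨fun i => S.ne (h1 i) (N.x1 i), fun i j h => S.ne (S.sub (hx i) (hx j)) (N.xi i j h),
    S.ne het N.et0, fun i j h => S.ne (hpp i j) (N.pp0 i j h), S.ne hee N.ee0, S.ne hla N.la0,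
    fun i => S.ne (haa i) (N.a0 i), fun i j h => S.ne (hai i j) (N.ai i j h),
    fun i j h => S.ne (S.sub (hbb i) (hbb j)) (N.bi i j h), S.ne hdet N.det0⟩

/-- a rational point in general position -/
def xq : Fin 5 → ℚ := ![2, 3, -1, -2, 1 / 12]

/-- a rational point in general position -/
def tq : Fin 9 → ℚ := fun _ => 0

theorem nd_q : ND xq tq := by
  refine ⟨?_, ?_, ?_, ?_, ?_, ?_, ?_, ?_, ?_, ?_⟩ <;> decide +kernel

end Pool.Agent.Work.MP_274868_ag
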