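import Pool.Agent.Work.MP_274868_ag.Spec

/-! Projection of the Grassmannian from a rational point linearises the action. -/

namespace Pool.Agent.Work.MP_274868_ag

open Matrix Finset

theorem map_inv3 {F G : Type*} [Field F] [Field G] (f : F →+* G) (M : Matrix (Fin 3) (Fin 3) F) :
    M⁻¹.map f = (M.map f)⁻¹ := by
  rw [Matrix.inv_def, Matrix.inv_def, Ring.inverse_eq_inv', Ring.inverse_eq_inv', ← RingHom.mapMatrix_apply,
    ← RingHom.mapMatrix_apply, ← RingHom.map_det, ← RingHom.map_adjugate, ← map_inv₀]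
  ext i j
  simp

theorem map_Nm {F G : Type*} [Field F] [Field G] (f : F →+* G) (a : Fin 5 → F)
    (p : Fin 5 → Fin 5 → F) (b : Fin 5 → F) :
    (Nm a p b).map f = Nm (fun i => f (a i)) (fun i j => f (p i j)) fun i => f (b i) := by
  ext i j
  fin_cases i <;> fin_cases j <;> simp [Nm]

variable {k E : Type*} [Field k] [Field E] [Algebra k E]

theorem mem_eq {L : IntermediateField k E} {u v : E} (h : u ∈ L) (e : u = v) : v ∈ L := e ▸ h

theorem inv_mem3 {L : IntermediateField k E} {M : Matrix (Fin 3) (Fin 3) E}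
    (h : ∀ i j, M i j ∈ L) (i j : Fin 3) : M⁻¹ i j ∈ L := by
  have e := map_inv3 L.val.toRingHom (of fun i j => ⟨M i j, h i j⟩)
  have e2 : (of fun i j => (⟨M i j, h i j⟩ : L)).map L.val.toRingHom = M := rfl
  rw [e2] at e
  rw [← e, map_apply]
  exact ((of fun i j => (⟨M i j, h i j⟩ : L))⁻¹ i j).2

theorem nm_mem {L : IntermediateField k E} {a b : Fin 5 → E} {p : Fin 5 → Fin 5 → E}
    (ha : ∀ i, a i ∈ L) (hp : ∀ i j, p i j ∈ L) (hb : ∀ i, b i ∈ L) (i j : Fin 3) :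
    Nm a p b i j ∈ L := by
  have e : _ = Nm a p b := map_Nm L.val.toRingHom (fun i => ⟨a i, ha i⟩)
    (fun i j => ⟨p i j, hp i j⟩) fun i => ⟨b i, hb i⟩
  rw [← e]
  exact Subtype.property _

theorem nm0_mem {L : IntermediateField k E} {a : Fin 5 → E} (ha : ∀ i, a i ∈ L) (i j : Fin 3) :
    Nm a (p0 a) (b0 a) i j ∈ L :=
  nm_mem ha (fun i j => div_mem (pow_mem (sub_mem (ha i) (ha j)) 2) (mul_mem (ha i) (ha j)))
    (fun i => div_mem (prod_mem fun j _ => sub_mem (ha i) (ha j)) (ha i)) i j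

theorem mul_mem3 {L : IntermediateField k E} {M N : Matrix (Fin 3) (Fin 3) E}
    (hM : ∀ i j, M i j ∈ L) (hN : ∀ i j, N i j ∈ L) (i j : Fin 3) : (M * N) i j ∈ L := by
  rw [Matrix.mul_apply]
  exact sum_mem fun l _ => mul_mem (hM i l) (hN l j)

theorem mul_memL {L : IntermediateField k E} {W : Submodule L E} {M N : Matrix (Fin 3) (Fin 3) E}
    (hM : ∀ i j, M i j ∈ L) (hN : ∀ i j, N i j ∈ W) (i j : Fin 3) : (M * N) i j ∈ W := by
  rw [Matrix.mul_apply]
  exact sum_mem fun l _ => W.smul_mem ⟨_, hM i l⟩ (hN l j)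

theorem mul_memR {L : IntermediateField k E} {W : Submodule L E} {M N : Matrix (Fin 3) (Fin 3) E}
    (hM : ∀ i j, M i j ∈ W) (hN : ∀ i j, N i j ∈ L) (i j : Fin 3) : (M * N) i j ∈ W := by
  rw [Matrix.mul_apply]
  refine sum_mem fun l _ => ?_
  rw [mul_comm]
  exact W.smul_mem ⟨_, hN l j⟩ (hM i l)

variable {A : Act k E} {a b : Fin 5 → E} {p : Fin 5 → Fin 5 → E} {H : E}

theorem g_Nm (ha : ∀ w i, A.g w (a i) = a (w i)) (hp : ∀ w i j, A.g w (p i j) = p (w i) (w j))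
    (hb : ∀ w i, A.g w (b i) = b (w i)) (w : Equiv.Perm (Fin 5)) :
    (Nm a p b).map (A.g w).toRingHom = Np w a p b := by
  rw [map_Nm]
  simp [Np, ha, hp, hb]

theorem g_Nm0 (ha : ∀ w i, A.g w (a i) = a (w i)) (w : Equiv.Perm (Fin 5)) :
    (Nm a (p0 a) (b0 a)).map (A.g w).toRingHom = Np w a (p0 a) (b0 a) :=
  g_Nm ha (fun w i j => by simp [p0, ha]) (fun w i => by
    simp only [b0, fd, map_div₀, map_prod, map_sub, ha]
    rw [prod_er_perm w fun j => a (w i) - a j]) w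

theorem stable (D : Dat a p b H) (hi : Function.Injective a) (ha : ∀ w i, A.g w (a i) = a (w i))
    (hp : ∀ w i j, A.g w (p i j) = p (w i) (w j)) (hb : ∀ w i, A.g w (b i) = b (w i))
    (hd : (Nm a p b - Nm a (p0 a) (b0 a)).det ≠ 0) {L : IntermediateField k E}
    (haL : ∀ i, a i ∈ L) (hL : ∀ w, ∀ l ∈ L, A.g w l ∈ L) (w : Equiv.Perm (Fin 5)) :
    ∀ z ∈ Submodule.span L (insert 1 (Set.range fun q : Fin 3 × Fin 3 =>
      (Nm a p b - Nm a (p0 a) (b0 a))⁻¹ q.1 q.2)), A.g w z ∈ Submodule.span L (insert 1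
        (Set.range fun q : Fin 3 × Fin 3 => (Nm a p b - Nm a (p0 a) (b0 a))⁻¹ q.1 q.2)) := by
  have D0 := dat0 D.a0 hi
  have hg : ∀ w, (Nm a p b - Nm a (p0 a) (b0 a)).map (A.g w).toRingHom =
      Np w a p b - Np w a (p0 a) (b0 a) := fun w => by
    rw [Matrix.map_sub _ (map_sub _), g_Nm ha hp hb, g_Nm0 ha]
  have e1 := D.rot_eq
  have e2 := D0.rot_eq
  have e3 := D.swp_eq
  have e4 := D0.swp_eq
  have e5 := D.det_ne
  have n0 := nm0_mem haL
  have n1 : ∀ i j, Np rot a (p0 a) (b0 a) i j ∈ L := fun i j => by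
    rw [← g_Nm0 ha]
    exact hL _ _ (n0 i j)
  generalize Nm a p b = N, Nm a (p0 a) (b0 a) = N0 at *
  set W := Submodule.span L (insert 1 (Set.range fun q : Fin 3 × Fin 3 => (N - N0)⁻¹ q.1 q.2))
  have h1 : (1 : E) ∈ W := Submodule.subset_span (Or.inl rfl)
  have hΨ : ∀ i j, (N - N0)⁻¹ i j ∈ W := fun i j => Submodule.subset_span (Or.inr ⟨(i, j), rfl⟩)
  have hLW : ∀ z ∈ L, z ∈ W := fun z hz => mul_one z ▸ W.smul_mem ⟨z, hz⟩ h1
  have key : ∀ w, (∀ i j, (Np w a p b - Np w a (p0 a) (b0 a))⁻¹ i j ∈ W) →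
      ∀ z ∈ W, A.g w z ∈ W := fun w h z hz => by
    induction hz using Submodule.span_induction with
    | mem x hx =>
      rcases hx with rfl | ⟨q, rfl⟩
      · rwa [map_one]
      · have := h q.1 q.2
        rwa [← hg, ← map_inv3] at this
    | zero => rw [map_zero]; exact zero_mem W
    | add x y _ _ h1 h2 => rw [map_add]; exact add_mem h1 h2
    | smul l x _ h1 =>
      have : A.g w (l • x) = (⟨A.g w l, hL w l l.2⟩ : L) • A.g w x := map_mul _ _ _
      rw [this]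
      exact W.smul_mem _ h1
  refine perm_ind (P := fun w => ∀ z ∈ W, A.g w z ∈ W) (fun z hz => by rwa [A.one])
    (key _ ?_) (key _ ?_) (fun u v hu hv z hz => A.mul u v z ▸ hu _ (hv z hz)) w
  · rw [e3, e4, ← sub_mul, ← mul_sub, ← transpose_sub, Matrix.mul_inv_rev, Matrix.mul_inv_rev,
      ← transpose_nonsing_inv]
    refine mul_memL (inv_mem3 fun i j => ?_) (mul_memR (fun i j => hΨ j i) (inv_mem3 fun i j => ?_))
    · fin_cases i <;> fin_cases j <;> simp [Rm, haL, mul_mem]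
    · fin_cases i <;> fin_cases j <;> simp [Lm, haL, mul_mem]
  · have hd' : (Np rot a p b - Np rot a (p0 a) (b0 a)).det ≠ 0 := by
      rw [← hg, ← RingHom.mapMatrix_apply, ← RingHom.map_det]
      exact (_root_.map_ne_zero _).2 hd
    have e6 : (G11 a + N * G21 a) * (Np rot a p b - Np rot a (p0 a) (b0 a)) =
        (N - N0) * (G22 a - G21 a * Np rot a (p0 a) (b0 a)) := by
      have : (G11 a + N * G21 a) * Np rot a (p0 a) (b0 a) =
          G12 a + N0 * G22 a + (N - N0) * (G21 a * Np rot a (p0 a) (b0 a)) := by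
        rw [← e2]
        noncomm_ring
      rw [mul_sub, e1, this]
      noncomm_ring
    have hB : (G22 a - G21 a * Np rot a (p0 a) (b0 a)).det ≠ 0 := fun h => by
      have := congrArg det e6
      rw [det_mul, det_mul, h, mul_zero] at this
      exact mul_ne_zero e5 hd' this
    have e7 : (N - N0)⁻¹ * (G11 a + N * G21 a) = (N - N0)⁻¹ * (G11 a + N0 * G21 a) + G21 a := by
      have : G11 a + N * G21 a = G11 a + N0 * G21 a + (N - N0) * G21 a := by noncomm_ring
      rw [this, mul_add, nonsing_inv_mul_cancel_left _ _ hd.isUnit]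
    have e8 : (Np rot a p b - Np rot a (p0 a) (b0 a))⁻¹ =
        (G22 a - G21 a * Np rot a (p0 a) (b0 a))⁻¹ *
          ((N - N0)⁻¹ * (G11 a + N0 * G21 a) + G21 a) := by
      apply inv_eq_left_inv
      rw [← e7, mul_assoc, mul_assoc, e6, nonsing_inv_mul_cancel_left _ _ hd.isUnit,
        nonsing_inv_mul _ hB.isUnit]
    have g21 : ∀ i j, G21 a i j ∈ L := fun i j => by
      have := mul_mem (mul_mem (mul_mem (haL 0) (haL 1)) (haL 3)) (haL 4)
      fin_cases i <;> fin_cases j <;> simp [G21, this, -_root_.mul_inv_rev]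
    rw [e8]
    refine mul_memL (inv_mem3 fun i j => sub_mem ?_ (mul_mem3 g21 n1 i j)) fun i j =>
      add_mem (mul_memR hΨ (fun i j => add_mem ?_ (mul_mem3 n0 g21 i j)) i j) (hLW _ (g21 i j))
    · fin_cases i <;> fin_cases j <;> simp [G22, haL]
    · fin_cases i <;> fin_cases j <;> simp [G11, haL, div_mem]

theorem recover [CharZero E] (D : Dat a p b H) {L : IntermediateField k E} (haL : ∀ i, a i ∈ L)
    (hN : ∀ w i j, Np w a p b i j ∈ L) :
    (∀ i j, i ≠ j → p i j / p 0 1 ∈ L) ∧ (∀ i, b i / p 0 1 ^ 2 ∈ L) ∧ H / p 0 1 ^ 4 ∈ L := by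
  have q01 := D.p0 0 1 (by decide)
  have h1 : ∀ i j l m, Function.Injective ![i, j, l, m] → p i j / p l m ∈ L := fun i j l m h => by
    obtain ⟨w, rfl, rfl, rfl, rfl⟩ := perm_four h
    have h2 : a (w 0) * a (w 1) * a (w 3) * a (w 4) * p (w 0) (w 1) / p (w 3) (w 4) ∈ L := hN w 2 2
    have h3 := div_mem h2 (mul_mem (mul_mem (mul_mem (haL (w 0)) (haL (w 1))) (haL (w 3)))
      (haL (w 4)))
    rwa [mul_div_assoc, mul_div_cancel_left₀ _ (by simp [D.a0])] at h3
  have h2 : ∀ i j, i ≠ j → p i j / p 0 1 ∈ L := fun i j h => by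
    have : ∀ i j : Fin 5, i ≠ j → Function.Injective ![i, j, 0, 1] ∨ ∃ l m, l ≠ m ∧
      Function.Injective ![i, j, l, m] ∧ Function.Injective ![l, m, 0, 1] := by decide +kernel
    rcases this i j h with h3 | ⟨l, m, h3, h4, h5⟩
    · exact h1 _ _ _ _ h3
    · have := mul_mem (h1 _ _ _ _ h4) (h1 _ _ _ _ h5)
      rwa [div_mul_div_cancel₀ (D.p0 l m h3)] at this
  have h3 : ∀ i j, i ≠ j → (b i + b j) / p 0 1 ^ 2 ∈ L := fun i j h => by
    have : ∀ i j : Fin 5, i ≠ j → ∃ m l, l ≠ j ∧ Function.Injective ![i, m, l, j] := by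
      decide +kernel
    obtain ⟨m, l, h3, h4⟩ := this i j h
    obtain ⟨w, rfl, rfl, rfl, rfl⟩ := perm_four h4
    have h5 : (b (w 0) + b (w 4)) / p (w 0) (w 4) / p (w 3) (w 4) ∈ L := hN w 0 2
    have h6 := mul_mem (mul_mem h5 (h2 _ _ h)) (h2 _ _ h3)
    have := D.p0 _ _ h
    have := D.p0 _ _ h3
    exact mem_eq h6 (by field_simp)
  have h4 : ∀ i, b i / p 0 1 ^ 2 ∈ L := fun i => by
    have : ∀ i : Fin 5, ∃ j l, i ≠ j ∧ i ≠ l ∧ j ≠ l := by decide +kernel
    obtain ⟨j, l, e1, e2, e3⟩ := this i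
    have h5 := div_mem (sub_mem (add_mem (h3 i j e1) (h3 i l e2)) (h3 j l e3)) (ofNat_mem L 2)
    exact mem_eq h5 (by field_simp; ring)
  refine ⟨h2, h4, ?_⟩
  have h5 := sub_mem (pow_mem (h4 0) 2) (mul_mem (mul_mem (haL 0) (mul_mem (mul_mem (mul_mem
    (mul_mem (haL 0) (haL 1)) (haL 2)) (haL 3)) (haL 4))) (mul_mem (mul_mem (h2 0 2 (by decide))
      (h2 0 3 (by decide))) (h2 0 4 (by decide))))
  exact mem_eq h5 (by field_simp; linear_combination D.r0)

end Pool.Agent.Work.MP_274868_ag
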