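import Pool.Agent.Work.MP_274868_ag.Stable

/-! The stable equivariant map of degree two at the level of maximal tori. -/

namespace Pool.Agent.Work.MP_274868_ag

open Matrix Finset Polynomial

variable {k E : Type*} [Field k] [Field E] [Algebra k E]

/-- the conclusion at the level of tori -/
def Out (k : Type*) [Field k] [Algebra k E] (x : Fin 5 → E) (t : Fin 9 → E) : Prop :=
  ∃ (a : Fin 5 → E) (s : Fin 9 → E) (η : E) (y w : Fin 5 → E), ∑ i, a i = 0 ∧
    (∀ i, a i = ∑ r, y r * x i ^ (r : ℕ)) ∧ (∀ i, x i = ∑ r, w r * a i ^ (r : ℕ)) ∧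
    (∀ M : IntermediateField k E, (∀ r, (∏ i, (X - C (x i))).coeff r ∈ M) → (∀ j, t j ∈ M) →
      (∀ r, y r ∈ M) ∧ (∀ j, s j ∈ M) ∧ η ∈ M) ∧
    ∀ M : IntermediateField k E, (∀ r, (∏ i, (X - C (a i))).coeff r ∈ M) → (∀ j, s j ∈ M) →
      η ^ 2 ∈ M ∧ (η ∈ M → (∀ r, w r ∈ M) ∧ ∀ j, t j ∈ M)

variable {A : Act k E} {x : Fin 5 → E} {t : Fin 9 → E}

theorem fx_interp {u v y : Fin 5 → E} (hu : ∀ w i, A.g w (u i) = u (w i))
    (hv : ∀ w i, A.g w (v i) = v (w i)) (hi : Function.Injective u)
    (h : ∀ i, v i = ∑ r, y r * u i ^ (r : ℕ)) (r : Fin 5) : A.Fx (y r) := fun w => by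
  refine congrFun (interp_unique hi (y := fun r => A.g w (y r)) (y' := y) fun i => ?_) r
  obtain ⟨i, rfl⟩ := w.surjective i
  rw [← h, ← hv, h i, map_sum]
  simp [hu]

theorem recover2 [CharZero E] (N : ND x t) {L : IntermediateField k E}
    (h1 : ∀ i j, i ≠ j → pp x t i j / pp x t 0 1 ∈ L) (h2 : ∀ i, bt x t i / pp x t 0 1 ^ 2 ∈ L)
    (h3 : (la x t * et x) ^ 2 / pp x t 0 1 ^ 4 ∈ L) :
    et x ^ 2 ∈ L ∧ (∀ i, bb x i ∈ L) ∧ ∀ j, t j ∈ L := by
  have q := N.pp0 0 1 (by decide)
  have hl := N.la0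
  have he := N.et0
  have h4 : ∀ i j, be x i * be x j ∈ L := fun i j =>
    mem_eq (div_mem (mul_mem (h2 i) (h2 j)) h3) (by simp only [bt, bb]; field_simp)
  have h5 : ∀ i, bb x i ∈ L := fun i =>
    mem_eq (sum_mem fun j (_ : j ∈ univ) => h4 i j) (by rw [bb, et, mul_sum])
  have hbi : Function.Injective (bb x) := fun i j h => by
    by_contra hn
    exact N.bi i j hn (sub_eq_zero.2 h)
  have h6 : ∀ i n, (∑ m : Fin 4, Th t m n * bb x i ^ (m : ℕ)) / pp x t 0 1 ∈ L := fun i =>
    interp_mem (hbi.comp (Fin.succAbove_right_injective (p := i))) L (fun j => h5 _) fun j =>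
      mem_eq (h1 i (i.succAbove j) (Fin.succAbove_ne i j).symm) (by
        rw [pp, sum_div]
        exact sum_congr rfl fun n _ => mul_div_right_comm _ _ _)
  have h7 : ∀ n m, Th t m n / pp x t 0 1 ∈ L := fun n =>
    interp_mem (hbi.comp (Fin.succ_injective 4)) L (fun j => h5 _) fun j =>
      mem_eq (h6 j.succ n) (by
        rw [sum_div]
        exact sum_congr rfl fun n _ => mul_div_right_comm _ _ _)
  have h8 : ∀ m n, Th t m n ∈ L := fun m n =>
    mem_eq (div_mem (h7 n m) (h7 0 0)) (by rw [div_div_div_cancel_right₀ q]; exact div_one _)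
  refine ⟨mem_eq (sum_mem fun i (_ : i ∈ univ) => h5 i) ?_, h5, fun j => ?_⟩
  · simp only [bb]
    rw [← sum_mul, sq, et]
  · fin_cases j
    exacts [h8 0 1, h8 0 2, h8 0 3, h8 1 1, h8 1 2, h8 1 3, h8 2 2, h8 2 3, h8 3 3]

theorem torus [CharZero k] (hx : ∀ w i, A.g w (x i) = x (w i)) (ht : ∀ j, A.Fx (t j))
    (h1 : ∏ i, x i = 1) (N : ND x t)
    (hgen : IntermediateField.adjoin k (Set.range x ∪ Set.range t) = ⊤) : Out k x t := by
  have : CharZero E := charZero_of_injective_algebraMap (algebraMap k E).injective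
  have D := N.dat h1
  have gbe : ∀ w i, A.g w (be x i) = be x (w i) := fun w i => by simp [be, hx]
  have get : A.Fx (et x) := fun w => by
    simp only [et, map_sum, gbe]
    exact Equiv.sum_comp w (be x)
  have gbb : ∀ w i, A.g w (bb x i) = bb x (w i) := fun w i => by rw [bb, map_mul, gbe, get w, bb]
  have gTh : ∀ m n, A.Fx (Th t m n) := fun m n w => by
    fin_cases m <;> fin_cases n <;> first | exact map_one _ | exact ht _ w
  have gpp : ∀ w i j, A.g w (pp x t i j) = pp x t (w i) (w j) := fun w i j => by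
    simp only [pp, map_sum, map_mul, map_pow, gbb, gTh _ _ w]
  have gcc : ∀ w i, A.g w (cc x t i) = cc x t (w i) := fun w i => by
    simp only [cc, map_div₀, map_sub, map_pow, map_prod, gbb, get w, gpp]
    rw [prod_er_perm w (pp x t (w i))]
  have gee : A.Fx (ee x t) := fun w => by
    simp only [ee, map_sum, gcc]
    exact Equiv.sum_comp w (cc x t)
  have gaa : ∀ w i, A.g w (aa x t i) = aa x t (w i) := fun w i => by
    rw [aa, map_div₀, gcc, gee w, aa]
  have hs := pp_symm x t
  have gPP : A.Fx (PP (pp x t)) := perm_ind (A.one _)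
    (by simp only [PP, map_mul, gpp, swp0, swp1, swp2, swp3, swp4, hs 1 0]; ring)
    (by simp only [PP, map_mul, gpp, rot0, rot1, rot2, rot3, rot4, hs 2 0, hs 2 1, hs 3 0, hs 3 1,
      hs 4 0, hs 4 1]; ring) fun u v hu hv => by rw [← A.mul, hv, hu]
  have gla : A.Fx (la x t) := fun w => by
    simp only [la, map_div₀, map_pow, map_prod, map_add, gbb, get w, gPP w, gee w]
    rw [Equiv.prod_comp w fun i => bb x i + et x]
  have gbt : ∀ w i, A.g w (bt x t i) = bt x t (w i) := fun w i => by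
    rw [bt, map_mul, gla w, gbb, bt]
  have hai : Function.Injective (aa x t) := fun i j h => by
    by_contra hn
    exact N.ai i j hn (sub_eq_zero.2 h)
  have hxi : Function.Injective x := fun i j h => by
    by_contra hn
    exact N.xi i j hn (sub_eq_zero.2 h)
  obtain ⟨a, ha⟩ : ∃ a : Fin 5 → E, a = fun i => aa x t i - 5⁻¹ := ⟨_, rfl⟩
  have ga : ∀ w i, A.g w (a i) = a (w i) := fun w i => by simp [ha, gaa, map_ofNat]
  have hi : Function.Injective a := fun i j h => hai (by simpa [ha] using h)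
  have haL : ∀ (L : IntermediateField k E), (∀ i, a i ∈ L) → ∀ i, aa x t i ∈ L := fun L h i =>
    mem_eq (add_mem (h i) (inv_mem (ofNat_mem L 5))) (by simp [ha])
  have hst := stable D hai gaa gpp gbt N.det0 (L := IntermediateField.adjoin k (Set.range a))
    (haL _ fun i => IntermediateField.subset_adjoin k _ ⟨i, rfl⟩) fun w l hl =>
      Act.map_adjoin w (by
        rintro _ ⟨i, rfl⟩
        exact IntermediateField.subset_adjoin k _ ⟨w i, (ga w i).symm⟩) hl
  have hsp := Act.speiser ga hi _ hst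
  obtain ⟨s, hs1, hs2⟩ := exists_nine (L := IntermediateField.adjoin k (Set.range a))
    (T := {z | z ∈ Submodule.span (IntermediateField.adjoin k (Set.range a)) (insert 1 (Set.range
      fun q : Fin 3 × Fin 3 => (Mm x t)⁻¹ q.1 q.2)) ∧ A.Fx z})
    ⟨Submodule.subset_span (Or.inl rfl), fun w => map_one _⟩ _ fun z hz => hz.1
  have hfs : ∀ j, A.Fx (s j) := fun j => (hs1 j).2
  set L := IntermediateField.adjoin k (Set.range a ∪ Set.range s) with hL
  have hle : IntermediateField.adjoin k (Set.range a) ≤ L :=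
    IntermediateField.adjoin.mono _ _ _ Set.subset_union_left
  have h2 : ∀ z ∈ Submodule.span (IntermediateField.adjoin k (Set.range a))
      (insert 1 (Set.range s) : Set E), z ∈ L := fun z hz => by
    induction hz using Submodule.span_induction with
    | mem x hx =>
      rcases hx with rfl | hx
      · exact one_mem L
      · exact IntermediateField.subset_adjoin k _ (Or.inr hx)
    | zero => exact zero_mem L
    | add x y _ _ h1 h2 => exact add_mem h1 h2
    | smul l x _ h1 => exact mul_mem (hle l.2) h1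
  have h3 : ∀ i j, (Mm x t)⁻¹ i j ∈ L := fun i j => h2 _
    (Submodule.span_le.2 hs2 (hsp (Submodule.subset_span (Or.inr ⟨(i, j), rfl⟩))))
  have h4 := inv_mem3 h3
  rw [nonsing_inv_nonsing_inv _ N.det0.isUnit] at h4
  have haL' := haL L fun i => IntermediateField.subset_adjoin k _ (Or.inl ⟨i, rfl⟩)
  have h5 : ∀ i j, Nm (aa x t) (pp x t) (bt x t) i j ∈ L := fun i j =>
    mem_eq (add_mem (h4 i j) (nm0_mem haL' i j)) (sub_add_cancel _ _)
  obtain ⟨r1, r2, r3⟩ := recover D haL' fun w i j => by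
    rw [← g_Nm gaa gpp gbt]
    refine Act.map_adjoin w ?_ (h5 i j)
    rintro _ (⟨i, rfl⟩ | ⟨j, rfl⟩)
    · exact IntermediateField.subset_adjoin k _ (Or.inl ⟨w i, (ga w i).symm⟩)
    · exact IntermediateField.subset_adjoin k _ (Or.inr ⟨j, (hfs j w).symm⟩)
  obtain ⟨r4, r5, r6⟩ := recover2 N r1 r2 r3
  obtain ⟨y, hy⟩ := interp_exists hxi a
  obtain ⟨w, hw⟩ := interp_exists hi x
  have ft : ∀ z ∈ Set.range t, A.Fx z := by
    rintro _ ⟨j, rfl⟩
    exact ht j
  have fs : ∀ z ∈ Set.range s, A.Fx z := by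
    rintro _ ⟨j, rfl⟩
    exact hfs j
  refine ⟨a, s, et x, y, w, ?_, hy, hw, fun M hM hMt => ?_, fun M hM hMs => ⟨?_, fun hη => ?_⟩⟩
  · simp only [ha, aa, sum_sub_distrib, ← sum_div]
    rw [← ee, div_self N.ee0]
    simp
  · have : ∀ z, A.Fx z → z ∈ M := fun z => Act.descent hx ft M hM (Set.range_subset_iff.2 hMt)
      (hgen ▸ IntermediateField.mem_top)
    exact ⟨fun r => this _ (fx_interp hx ga hxi hy r), fun j => this _ (hfs j), this _ get⟩
  · exact Act.descent ga fs M hM (Set.range_subset_iff.2 hMs) r4 fun w => by rw [map_pow, get w]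
  · set L' := IntermediateField.adjoin k (Set.range a ∪ insert (et x) (Set.range s)) with hL'
    have hle' : L ≤ L' := IntermediateField.adjoin.mono _ _ _
      (Set.union_subset_union_right _ (Set.subset_insert _ _))
    have he : et x ∈ L' := IntermediateField.subset_adjoin k _ (Or.inr (Or.inl rfl))
    have htop : ⊤ ≤ L' := by
      rw [← hgen, IntermediateField.adjoin_le_iff]
      rintro _ (⟨i, rfl⟩ | ⟨j, rfl⟩)
      · have h6 := div_mem (hle' (r5 i)) he
        rw [bb, mul_div_cancel_right₀ _ N.et0] at h6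
        have := N.x1 i
        refine mem_eq (div_mem (add_mem h6 (one_mem L')) (sub_mem h6 (one_mem L'))) ?_
        have e1 : be x i + 1 = 2 / (x i - 1) * x i := by rw [be]; field_simp; ring
        have e2 : be x i - 1 = 2 / (x i - 1) := by rw [be]; field_simp; ring
        rw [e1, e2, mul_div_cancel_left₀ _ (div_ne_zero two_ne_zero this)]
      · exact hle' (r6 j)
    have : ∀ z, A.Fx z → z ∈ M := fun z => Act.descent ga (S := insert (et x) (Set.range s))
      (by
        rintro _ (rfl | h)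
        · exact get
        · exact fs _ h) M hM (Set.insert_subset hη (Set.range_subset_iff.2 hMs))
      (htop IntermediateField.mem_top)
    exact ⟨fun r => this _ (fx_interp ga hx hi hw r), fun j => this _ (ht j)⟩

end Pool.Agent.Work.MP_274868_ag
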